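import Pool.Agent.Helper16_AC.Prt2
import Pool.Agent.Helper49_ANP.Lab
import Pool.Agent.Helper72_ANP.SepRows

/-! PRT2 without hypotheses. -/

set_option autoImplicit false

noncomputable section

namespace Pool.Agent.ANP.AC

theorem prt2T : ACX.Prt2Stmt := prt2 (ANP.H49.lab ANP.H72.sep ANP.H72.se2)

end Pool.Agent.ANP.AC
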