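import Pool.Agent.Helper16_AC.Dens

/-! From `Att` to `Wf`, the truth has the variance `s - f`. -/

set_option autoImplicit false

open MeasureTheory ProbabilityTheory

open scoped ENNReal NNReal BigOperators

noncomputable section

namespace Pool.Agent.ANP.AC

open Pool.Agent.ANP Pool.Agent.ANP.H16

theorem ofReal_integral_le {α : Type} [MeasurableSpace α] {μ : Measure α} {f : α → ℝ}
    (hf : Integrable f μ) : ENNReal.ofReal (∫ x, f x ∂μ) ≤ ∫⁻ x, ENNReal.ofReal (f x) ∂μ := by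
  rw [integral_eq_lintegral_pos_part_sub_lintegral_neg_part hf]
  have h1 : (∫⁻ x, ENNReal.ofReal (f x) ∂μ) ≠ ⊤ := by
    refine ne_top_of_le_ne_top hf.2.ne ?_
    refine lintegral_mono fun x => ?_
    exact Real.ofReal_le_enorm (f x)
  calc ENNReal.ofReal ((∫⁻ x, ENNReal.ofReal (f x) ∂μ).toReal -
        (∫⁻ x, ENNReal.ofReal (-f x) ∂μ).toReal)
      ≤ ENNReal.ofReal ((∫⁻ x, ENNReal.ofReal (f x) ∂μ).toReal) := by
        refine ENNReal.ofReal_le_ofReal ?_
        have : 0 ≤ (∫⁻ x, ENNReal.ofReal (-f x) ∂μ).toReal := ENNReal.toReal_nonneg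
        linarith
    _ = ∫⁻ x, ENNReal.ofReal (f x) ∂μ := ENNReal.ofReal_toReal h1

variable {X : Type} [Fintype X] [DecidableEq X]

/-- the sites of `R` which are alive -/
def alv (R : Finset X) (T : Cfg X) : Finset X := {x ∈ R | T.s x ≠ 0}

/-- the noise which reveals `D` -/
def rvl (r : X → ℝ≥0) (D : Finset X) (x : X) : ℝ≥0 := if x ∈ D then r x else 0

theorem att_w (R Q : Finset X) (v : X → ℝ) (Ok : Cfg X → Prop) {g : (X → ℝ) → ℝ}
    (hg : Bm g) (e₁ e₂ : ℝ) (he : e₁ ≤ e₂) (c : ℝ) (hc : 1 ≤ c)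
    (P : Cfg X → (X → ℝ) → (X → ℝ≥0) → Prop)
    (hle : ∀ T a r, P T a r → ∀ x ∈ R, 0 < T.s x →
      0 < r x ∧ r x ≤ T.s x ∧ Real.sqrt ((T.s x : ℝ) / r x) ≤ c)
    (hap : ∀ T a r b, b ∈ Q → P T a r → P (T.rv {b} v) a r)
    (hkl : ∀ T a r (D : Finset X) (ζ : X → ℝ), D ⊆ R → (∀ x ∈ D, 0 < T.s x) →
      (∀ x, x ∉ D → ζ x = 0) → P T a r →
      P (T.kl D ζ) (fun x => a x + ζ x) (fun x => r x - rvl r D x))
    (h₁ : ∀ T a r, Ok T → P T a r → Wf g a r e₁)
    (h₂ : ∀ T a r, P T a r → Wf g a r e₂)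
    (T : Cfg X) (q : ℝ≥0∞) (h : Att R Q v Ok T q) :
    ∀ (a : X → ℝ) (r : X → ℝ≥0), P T a r →
      ENNReal.ofReal ((∫ U, g U ∂(gm a r)) - e₁) ≤
        ENNReal.ofReal c ^ (alv R T).card * q * ENNReal.ofReal (e₂ - e₁) := by
  have hc1 : (1 : ℝ≥0∞) ≤ ENNReal.ofReal c := by
    rw [← ENNReal.ofReal_one]
    exact ENNReal.ofReal_le_ofReal hc
  induction h with
  | ok T hT =>
    intro a r hP
    have := h₁ T a r hT hP
    unfold Wf at this
    rw [ENNReal.ofReal_of_nonpos (by linarith)]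
    exact zero_le
  | one T =>
    intro a r hP
    have := h₂ T a r hP
    unfold Wf at this
    rw [mul_one]
    calc ENNReal.ofReal ((∫ U, g U ∂(gm a r)) - e₁) ≤ ENNReal.ofReal (e₂ - e₁) :=
          ENNReal.ofReal_le_ofReal (by linarith)
      _ = 1 * ENNReal.ofReal (e₂ - e₁) := (one_mul _).symm
      _ ≤ ENNReal.ofReal c ^ (alv R T).card * ENNReal.ofReal (e₂ - e₁) := by
          gcongr
          exact one_le_pow₀ hc1
  | mono T q q' hq _ ih =>
    intro a r hP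
    refine (ih a r hP).trans ?_
    gcongr
  | ap T b q hb _ ih =>
    intro a r hP
    refine (ih a r (hap T a r b hb hP)).trans ?_
    have h3 : (alv R (T.rv {b} v)).card ≤ (alv R T).card := by
      refine Finset.card_le_card fun x hx => ?_
      unfold alv Cfg.rv at hx
      unfold alv
      rw [Finset.mem_filter] at hx ⊢
      refine ⟨hx.1, fun h => hx.2 ?_⟩
      simp only
      split_ifs
      · rfl
      · exact h
    gcongr
  | kill T D q hD hs hq _ ih =>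
    intro a r hP
    have hτ : ∀ x, rvl r D x ≤ r x := by
      intro x
      unfold rvl
      split_ifs
      · exact le_rfl
      · exact zero_le
    set μ := gm (fun _ : X => (0 : ℝ)) (rvl r D) with hμ
    have h0 := gm_ae_zero (rvl r D)
    have h4 : (∫ U, g U ∂(gm a r)) - e₁ = ∫ ζ, ((∫ y, g y
        ∂(gm (fun x => a x + ζ x) (fun x => r x - rvl r D x))) - e₁) ∂μ := by
      rw [gm_step_int' hg a r (rvl r D) hτ, integral_sub (gm_int_int hg a _ _)
        (integrable_const e₁), integral_const]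
      simp
    rw [h4]
    have hi : Integrable (fun ζ => ((∫ y, g y
        ∂(gm (fun x => a x + ζ x) (fun x => r x - rvl r D x))) - e₁)) μ :=
      (gm_int_int hg a _ _).sub (integrable_const e₁)
    refine (ofReal_integral_le hi).trans ?_
    have hcard : ∀ ζ : X → ℝ, (alv R (T.kl D ζ)).card + D.card = (alv R T).card := by
      intro ζ
      have e1 : alv R (T.kl D ζ) = alv R T \ D := by
        ext x
        unfold alv Cfg.kl
        rw [Finset.mem_filter, Finset.mem_sdiff, Finset.mem_filter]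
        by_cases hx : x ∈ D
        · simp [hx]
        · simp [hx]
      have e2 : D ⊆ alv R T := by
        intro x hx
        unfold alv
        rw [Finset.mem_filter]
        exact ⟨hD hx, (hs x hx).ne'⟩
      rw [e1, Finset.card_sdiff_add_card_eq_card e2]
    have h5 : ∀ᵐ ζ ∂μ, ENNReal.ofReal ((∫ y, g y
        ∂(gm (fun x => a x + ζ x) (fun x => r x - rvl r D x))) - e₁) ≤
        ENNReal.ofReal c ^ ((alv R T).card - D.card) * q ζ * ENNReal.ofReal (e₂ - e₁) := by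
      filter_upwards [h0] with ζ hζ
      have hζ' : ∀ x, x ∉ D → ζ x = 0 := fun x hx => hζ x (by unfold rvl; rw [if_neg hx])
      have h6 := ih ζ _ _ (hkl T a r D ζ hD hs hζ' hP)
      have h7 : (alv R (T.kl D ζ)).card = (alv R T).card - D.card := by
        have := hcard ζ
        omega
      rw [h7] at h6
      exact h6
    have hle' : D.card ≤ (alv R T).card := by
      have := hcard (fun _ => 0)
      omega
    have h8 : μ ≤ (ENNReal.ofReal c ^ D.card) • gm (fun _ => 0) (T.kv D) := by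
      rw [hμ]
      refine gm_le D (rvl r D) (T.kv D) c hc (fun x hx => ?_) (fun x hx => ?_)
      · unfold rvl Cfg.kv
        rw [if_neg hx, if_neg hx]
        exact ⟨rfl, rfl⟩
      · unfold rvl Cfg.kv
        rw [if_pos hx, if_pos hx]
        exact hle T a r hP x (hD hx) (hs x hx)
    calc ∫⁻ ζ, ENNReal.ofReal ((∫ y, g y
          ∂(gm (fun x => a x + ζ x) (fun x => r x - rvl r D x))) - e₁) ∂μ
        ≤ ∫⁻ ζ, ENNReal.ofReal c ^ ((alv R T).card - D.card) * q ζ *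
            ENNReal.ofReal (e₂ - e₁) ∂μ := lintegral_mono_ae h5
      _ = ENNReal.ofReal c ^ ((alv R T).card - D.card) * (∫⁻ ζ, q ζ ∂μ) *
            ENNReal.ofReal (e₂ - e₁) := by
          rw [lintegral_mul_const _ (hq.const_mul _), lintegral_const_mul _ hq]
      _ ≤ ENNReal.ofReal c ^ ((alv R T).card - D.card) *
            (ENNReal.ofReal c ^ D.card * ∫⁻ ζ, q ζ ∂(gm (fun _ => 0) (T.kv D))) *
            ENNReal.ofReal (e₂ - e₁) := by
          gcongr
          refine (lintegral_mono' h8 le_rfl).trans ?_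
          rw [lintegral_smul_measure, smul_eq_mul]
      _ = ENNReal.ofReal c ^ (alv R T).card * (∫⁻ ζ, q ζ ∂(gm (fun _ => 0) (T.kv D))) *
            ENNReal.ofReal (e₂ - e₁) := by
          rw [← mul_assoc, ← pow_add, Nat.sub_add_cancel hle']

theorem att_real (R Q : Finset X) (v : X → ℝ) (Ok : Cfg X → Prop) {g : (X → ℝ) → ℝ}
    (hg : Bm g) (e₁ e₂ : ℝ) (he : e₁ ≤ e₂) (c : ℝ) (hc : 1 ≤ c) (hc2 : c ^ R.card ≤ 2)
    (P : Cfg X → (X → ℝ) → (X → ℝ≥0) → Prop)
    (hle : ∀ T a r, P T a r → ∀ x ∈ R, 0 < T.s x →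
      0 < r x ∧ r x ≤ T.s x ∧ Real.sqrt ((T.s x : ℝ) / r x) ≤ c)
    (hap : ∀ T a r b, b ∈ Q → P T a r → P (T.rv {b} v) a r)
    (hkl : ∀ T a r (D : Finset X) (ζ : X → ℝ), D ⊆ R → (∀ x ∈ D, 0 < T.s x) →
      (∀ x, x ∉ D → ζ x = 0) → P T a r →
      P (T.kl D ζ) (fun x => a x + ζ x) (fun x => r x - rvl r D x))
    (h₁ : ∀ T a r, Ok T → P T a r → Wf g a r e₁)
    (h₂ : ∀ T a r, P T a r → Wf g a r e₂)
    (T : Cfg X) (p : ℝ) (hp : 0 ≤ p) (h : Att R Q v Ok T (ENNReal.ofReal p))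
    (a : X → ℝ) (r : X → ℝ≥0) (hP : P T a r) : Wf g a r (e₁ + 2 * p * (e₂ - e₁)) := by
  have h3 := att_w R Q v Ok hg e₁ e₂ he c hc P hle hap hkl h₁ h₂ T _ h a r hP
  have hc0 : 0 ≤ c := by linarith
  have h4 : ENNReal.ofReal c ^ (alv R T).card * ENNReal.ofReal p * ENNReal.ofReal (e₂ - e₁) =
      ENNReal.ofReal (c ^ (alv R T).card * p * (e₂ - e₁)) := by
    rw [ENNReal.ofReal_mul (by positivity), ENNReal.ofReal_mul (by positivity),
      ENNReal.ofReal_pow hc0]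
  rw [h4] at h3
  have h5 : c ^ (alv R T).card ≤ 2 := by
    refine le_trans (pow_le_pow_right₀ hc (Finset.card_le_card (Finset.filter_subset _ _))) hc2
  have h6 : 0 ≤ p * (e₂ - e₁) := mul_nonneg hp (sub_nonneg.2 he)
  have h7 : c ^ (alv R T).card * p * (e₂ - e₁) ≤ 2 * p * (e₂ - e₁) := by
    rw [mul_assoc, mul_assoc]
    exact mul_le_mul_of_nonneg_right h5 h6
  have h8 : 0 ≤ c ^ (alv R T).card * p * (e₂ - e₁) := by
    rw [mul_assoc]
    exact mul_nonneg (pow_nonneg hc0 _) h6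
  unfold Wf
  have h9 := (ENNReal.ofReal_le_ofReal_iff h8).1 h3
  linarith

/-- AN ATTEMPT. The truth on `R` has the variance `s - f`. -/
theorem atf {g : (X → ℝ) → ℝ} (hg : Bm g) (R Q : Finset X) (Ok : (X → ℝ) → Cfg X → Prop)
    (T : Cfg X) (a : X → ℝ) (r : X → ℝ≥0) (f : ℝ≥0) (c p e₁ e₂ : ℝ) (hc : 1 ≤ c)
    (hc2 : c ^ R.card ≤ 2) (hRQ : Disjoint R Q) (hp : 0 ≤ p) (he : e₁ ≤ e₂)
    (hR : ∀ x ∈ R, a x = T.V x ∧ r x = T.s x - f)
    (hf : ∀ x ∈ R, f < T.s x ∧ Real.sqrt ((T.s x : ℝ) / ((T.s x - f : ℝ≥0) : ℝ)) ≤ c)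
    (hAtt : ∀ v, Att R Q v (Ok v) T (ENNReal.ofReal p))
    (h₁ : ∀ v T' a' r', Ok v T' → T'.mb = T.mb → (∀ x ∈ R, a' x = T'.V x ∧ r' x = T'.s x - f) →
      (∀ x ∈ R, T'.s x = 0 ∨ T'.V x = T.V x ∧ T'.s x = T.s x) →
      (∀ x ∈ Q, a' x = v x ∧ r' x = 0) →
      (∀ x, x ∉ Q → x ∉ R → a' x = a x ∧ r' x = r x ∧ T'.V x = T.V x ∧ T'.s x = T.s x) →
      Wf g a' r' e₁)
    (h₂ : ∀ a' r', (∀ x, x ∉ Q → x ∉ R → a' x = a x ∧ r' x = r x) → Wf g a' r' e₂) :
    Wf g a r (e₁ + 2 * p * (e₂ - e₁)) := by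
  -- reveal `Q`
  refine wf_noise hg a r (fun x => if x ∈ Q then r x else 0) ?_ _ ?_
  · intro x
    split_ifs
    · exact le_rfl
    · exact zero_le
  intro ζ hζ
  set v : X → ℝ := fun x => a x + ζ x with hv
  have hζQ : ∀ x, x ∉ Q → ζ x = 0 := by
    intro x hx
    refine hζ x ?_
    rw [if_neg hx]
  have hQR : ∀ x, x ∈ R → x ∉ Q := fun x hx hq => Finset.disjoint_left.mp hRQ hx hq
  refine att_real R Q v (Ok v) hg e₁ e₂ he c hc hc2
    (fun T' a' r' => T'.mb = T.mb ∧ (∀ x ∈ R, a' x = T'.V x ∧ r' x = T'.s x - f) ∧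
      (∀ x ∈ R, T'.s x = 0 ∨ T'.V x = T.V x ∧ T'.s x = T.s x) ∧
      (∀ x ∈ Q, a' x = v x ∧ r' x = 0) ∧
      (∀ x, x ∉ Q → x ∉ R → a' x = a x ∧ r' x = r x ∧ T'.V x = T.V x ∧ T'.s x = T.s x))
    ?_ ?_ ?_ ?_ ?_ T p hp (hAtt v) _ _ ?_
  · intro T' a' r' hP x hx hs
    rcases hP.2.2.1 x hx with h | h
    · exact absurd h hs.ne'
    · rw [(hP.2.1 x hx).2, h.2]
      exact ⟨tsub_pos_of_lt (hf x hx).1, tsub_le_self, (hf x hx).2⟩
  · intro T' a' r' b hb ⟨p1, p2, p3, p4, p5⟩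
    have hbR : b ∉ R := fun h => hQR b h hb
    have hV : ∀ x, x ≠ b → (T'.rv {b} v).V x = T'.V x := fun x hx => by
      show (if x ∈ ({b} : Finset X) then v x else T'.V x) = _
      rw [if_neg (by simpa using hx)]
    have hs : ∀ x, x ≠ b → (T'.rv {b} v).s x = T'.s x := fun x hx => by
      show (if x ∈ ({b} : Finset X) then 0 else T'.s x) = _
      rw [if_neg (by simpa using hx)]
    have hne : ∀ x, x ∈ R → x ≠ b := fun x hx h => hbR (h ▸ hx)
    have hne2 : ∀ x, x ∉ Q → x ≠ b := fun x hx h => hx (h ▸ hb)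
    refine ⟨p1, fun x hx => ?_, fun x hx => ?_, p4, fun x hx hx2 => ?_⟩
    · rw [hV x (hne x hx), hs x (hne x hx)]; exact p2 x hx
    · rw [hV x (hne x hx), hs x (hne x hx)]; exact p3 x hx
    · rw [hV x (hne2 x hx), hs x (hne2 x hx)]; exact p5 x hx hx2
  · intro T' a' r' D ξ hD _ hξ ⟨p1, p2, p3, p4, p5⟩
    have hV : ∀ x, x ∉ D → (T'.kl D ξ).V x = T'.V x := fun x hx => by
      show (if x ∈ D then T'.V x + ξ x else T'.V x) = _
      rw [if_neg hx]
    have hs : ∀ x, x ∉ D → (T'.kl D ξ).s x = T'.s x := fun x hx => by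
      show (if x ∈ D then 0 else T'.s x) = _
      rw [if_neg hx]
    have hV2 : ∀ x, x ∈ D → (T'.kl D ξ).V x = T'.V x + ξ x := fun x hx => by
      show (if x ∈ D then T'.V x + ξ x else T'.V x) = _
      rw [if_pos hx]
    have hs2 : ∀ x, x ∈ D → (T'.kl D ξ).s x = 0 := fun x hx => by
      show (if x ∈ D then 0 else T'.s x) = _
      rw [if_pos hx]
    have hk : ∀ x, x ∉ D → rvl r' D x = 0 := fun x hx => by
      unfold rvl; rw [if_neg hx]
    have hk2 : ∀ x, x ∈ D → rvl r' D x = r' x := fun x hx => by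
      unfold rvl; rw [if_pos hx]
    refine ⟨p1, fun x hx => ?_, fun x hx => ?_, fun x hx => ?_, fun x hx hx2 => ?_⟩ <;> beta_reduce
    · by_cases hd : x ∈ D
      · rw [hV2 x hd, hs2 x hd, hk2 x hd, (p2 x hx).1]
        exact ⟨rfl, by rw [tsub_self, zero_tsub]⟩
      · rw [hV x hd, hs x hd, hk x hd, hξ x hd, add_zero, tsub_zero]
        exact p2 x hx
    · by_cases hd : x ∈ D
      · exact Or.inl (hs2 x hd)
      · rw [hV x hd, hs x hd]; exact p3 x hx
    · have hd : x ∉ D := fun h => hQR x (hD h) hx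
      rw [hk x hd, hξ x hd, add_zero, tsub_zero]
      exact p4 x hx
    · have hd : x ∉ D := fun h => hx2 (hD h)
      rw [hV x hd, hs x hd, hk x hd, hξ x hd, add_zero, tsub_zero]
      exact p5 x hx hx2
  · intro T' a' r' hOk ⟨p1, p2, p3, p4, p5⟩
    exact h₁ v T' a' r' hOk p1 p2 p3 p4 p5
  · intro T' a' r' ⟨_, _, _, _, p5⟩
    exact h₂ a' r' fun x hx hx2 => ⟨(p5 x hx hx2).1, (p5 x hx hx2).2.1⟩
  · refine ⟨rfl, fun x hx => ?_, fun x hx => Or.inr ⟨rfl, rfl⟩, fun x hx => ?_, fun x hx hx2 => ?_⟩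
    · have hq := hQR x hx
      show a x + ζ x = _ ∧ r x - (if x ∈ Q then r x else 0) = _
      rw [if_neg hq, hζQ x hq, add_zero, tsub_zero]
      exact hR x hx
    · refine ⟨rfl, ?_⟩
      show r x - (if x ∈ Q then r x else 0) = 0
      rw [if_pos hx]
      exact tsub_self _
    · refine ⟨?_, ?_, rfl, rfl⟩
      · show a x + ζ x = a x
        rw [hζQ x hx, add_zero]
      · show r x - (if x ∈ Q then r x else 0) = r x
        rw [if_neg hx, tsub_zero]

end Pool.Agent.ANP.AC
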