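import Pool.Agent.Helper16_AC.Wf

/-! Comparison of Gaussian product measures. -/

set_option autoImplicit false

open MeasureTheory ProbabilityTheory

open scoped ENNReal NNReal BigOperators

noncomputable section

namespace Pool.Agent.ANP.AC

open Pool.Agent.ANP Pool.Agent.ANP.H16

/-- products of measures are monotone -/
theorem pi_le {ι : Type} [Fintype ι] {α : ι → Type} [∀ i, MeasurableSpace (α i)]
    (μ ν : ∀ i, Measure (α i)) [∀ i, SigmaFinite (μ i)] [∀ i, SigmaFinite (ν i)]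
    (c : ι → ℝ≥0∞) (hc0 : ∀ i, c i ≠ 0) (hc : ∀ i, c i ≠ ⊤) (h : ∀ i, μ i ≤ c i • ν i) :
    Measure.pi μ ≤ (∏ i, c i) • Measure.pi ν := by
  have hC0 : (∏ i, c i) ≠ 0 := Finset.prod_ne_zero_iff.2 fun i _ => hc0 i
  have hC : (∏ i, c i) ≠ ⊤ := ENNReal.prod_ne_top fun i _ => hc i
  have h1 : ((∏ i, c i)⁻¹ • Measure.pi μ).toOuterMeasure ≤
      OuterMeasure.pi fun i => (ν i).toOuterMeasure := by
    rw [OuterMeasure.le_pi]
    intro s _
    have h2 : ((∏ i, c i)⁻¹ • Measure.pi μ).toOuterMeasure (Set.univ.pi s) =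
        (∏ i, c i)⁻¹ * ∏ i, μ i (s i) := by
      show ((∏ i, c i)⁻¹ • Measure.pi μ) (Set.univ.pi s) = _
      rw [Measure.smul_apply, Measure.pi_pi, smul_eq_mul]
    rw [h2]
    have h3 : ∏ i, μ i (s i) ≤ (∏ i, c i) * ∏ i, ν i (s i) := by
      rw [← Finset.prod_mul_distrib]
      refine Finset.prod_le_prod' fun i _ => ?_
      have := h i (s i)
      rwa [Measure.smul_apply, smul_eq_mul] at this
    calc (∏ i, c i)⁻¹ * ∏ i, μ i (s i) ≤ (∏ i, c i)⁻¹ * ((∏ i, c i) * ∏ i, ν i (s i)) := by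
          gcongr
      _ = ∏ i, ν i (s i) := by
          rw [← mul_assoc, ENNReal.inv_mul_cancel hC0 hC, one_mul]
      _ = ∏ i, (ν i).toOuterMeasure (s i) := rfl
  refine Measure.le_iff.2 fun s hs => ?_
  have h2 : (∏ i, c i)⁻¹ * Measure.pi μ s ≤ Measure.pi ν s := by
    have h3 := h1 s
    have h4 : (OuterMeasure.pi fun i => (ν i).toOuterMeasure) s = Measure.pi ν s := by
      rw [Measure.pi, toMeasure_apply _ _ hs]
    rw [h4] at h3
    exact h3
  rw [Measure.smul_apply, smul_eq_mul]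
  calc Measure.pi μ s = (∏ i, c i) * ((∏ i, c i)⁻¹ * Measure.pi μ s) := by
        rw [← mul_assoc, ENNReal.mul_inv_cancel hC0 hC, one_mul]
    _ ≤ (∏ i, c i) * Measure.pi ν s := by gcongr

/-- a smaller variance -/
theorem gauss_le (r s : ℝ≥0) (hr : 0 < r) (hrs : r ≤ s) :
    gaussianReal 0 r ≤ ENNReal.ofReal (Real.sqrt (s / r)) • gaussianReal 0 s := by
  have hs : 0 < s := lt_of_lt_of_le hr hrs
  have hr' : (0 : ℝ) < r := by exact_mod_cast hr
  have hs' : (0 : ℝ) < s := by exact_mod_cast hs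
  have hrs' : (r : ℝ) ≤ s := by exact_mod_cast hrs
  rw [gaussianReal_of_var_ne_zero 0 hr.ne', gaussianReal_of_var_ne_zero 0 hs.ne',
    ← withDensity_smul _ (measurable_gaussianPDF 0 s)]
  refine withDensity_mono ?_
  filter_upwards with x
  show gaussianPDF 0 r x ≤ ENNReal.ofReal (Real.sqrt (s / r)) * gaussianPDF 0 s x
  unfold gaussianPDF
  rw [← ENNReal.ofReal_mul (Real.sqrt_nonneg _)]
  refine ENNReal.ofReal_le_ofReal ?_
  unfold gaussianPDFReal
  have e1 : Real.exp (-(x - 0) ^ 2 / (2 * r)) ≤ Real.exp (-(x - 0) ^ 2 / (2 * s)) := by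
    refine Real.exp_le_exp.2 ?_
    rw [neg_div, neg_div, neg_le_neg_iff]
    gcongr
  have e2 : (Real.sqrt (2 * Real.pi * r))⁻¹ =
      Real.sqrt (s / r) * (Real.sqrt (2 * Real.pi * s))⁻¹ := by
    rw [← Real.sqrt_inv, ← Real.sqrt_inv, ← Real.sqrt_mul (by positivity)]
    congr 1
    field_simp
  rw [e2]
  have h0 : 0 ≤ Real.sqrt (s / r) * (Real.sqrt (2 * Real.pi * s))⁻¹ := by positivity
  calc Real.sqrt (s / r) * (Real.sqrt (2 * Real.pi * s))⁻¹ * Real.exp (-(x - 0) ^ 2 / (2 * r))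
      ≤ Real.sqrt (s / r) * (Real.sqrt (2 * Real.pi * s))⁻¹ *
        Real.exp (-(x - 0) ^ 2 / (2 * s)) := mul_le_mul_of_nonneg_left e1 h0
    _ = Real.sqrt (s / r) * ((Real.sqrt (2 * Real.pi * s))⁻¹ *
        Real.exp (-(x - 0) ^ 2 / (2 * s))) := by ring

variable {X : Type} [Fintype X]

/-- the noise of a kill with a smaller variance -/
theorem gm_le [DecidableEq X] (D : Finset X) (r s : X → ℝ≥0) (c : ℝ) (hc : 1 ≤ c)
    (h0 : ∀ x, x ∉ D → r x = 0 ∧ s x = 0)
    (h1 : ∀ x ∈ D, 0 < r x ∧ r x ≤ s x ∧ Real.sqrt ((s x : ℝ) / r x) ≤ c) :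
    gm (fun _ => 0) r ≤ (ENNReal.ofReal c ^ D.card) • gm (fun _ => 0) s := by
  unfold gm
  have h := pi_le (fun x => gaussianReal 0 (r x)) (fun x => gaussianReal 0 (s x))
    (fun x => if x ∈ D then ENNReal.ofReal c else 1)
    (fun x => by
      split_ifs
      · exact (ENNReal.ofReal_pos.2 (by linarith)).ne'
      · exact one_ne_zero)
    (fun x => by
      split_ifs
      · exact ENNReal.ofReal_ne_top
      · exact ENNReal.one_ne_top)
    (fun x => by
      by_cases hx : x ∈ D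
      · rw [if_pos hx]
        obtain ⟨e1, e2, e3⟩ := h1 x hx
        refine (gauss_le (r x) (s x) e1 e2).trans ?_
        refine Measure.le_iff.2 fun A _ => ?_
        rw [Measure.smul_apply, Measure.smul_apply, smul_eq_mul, smul_eq_mul]
        gcongr
      · rw [if_neg hx, (h0 x hx).1, (h0 x hx).2, one_smul])
  have h2 : (∏ x, if x ∈ D then ENNReal.ofReal c else (1 : ℝ≥0∞)) = ENNReal.ofReal c ^ D.card := by
    rw [Finset.prod_ite_mem, Finset.univ_inter, Finset.prod_const]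
  rw [h2] at h
  exact h

end Pool.Agent.ANP.AC
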