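import Pool.Agent.Helper16_AC.Val
import Pool.Agent.Helper16_ANP.PrtD
import Pool.Agent.ACX.Prt

/-! The functional with marked sites, the truth `s - f`. -/

set_option autoImplicit false
set_option linter.unusedSectionVars false

open MeasureTheory ProbabilityTheory

open scoped ENNReal NNReal BigOperators

noncomputable section

namespace Pool.Agent.ANP.AC

open Pool.Agent.ANP Pool.Agent.ANP.H16

variable {X : Type} [Fintype X] [DecidableEq X]

/-- the functional, `S` the marked sites -/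
def gS (φ : (X → ℝ) → ℝ) (ψ : X → (X → ℝ) → ℝ) (S : Finset X) (U : X → ℝ) : ℝ :=
  φ U - ∑ x ∈ S, ψ x U

/-- the hypotheses on the functional -/
structure Fn (φ : (X → ℝ) → ℝ) (ψ : X → (X → ℝ) → ℝ) (K : ℝ) : Prop where
  mφ : Measurable φ
  bφ : ∀ U, 0 ≤ φ U ∧ φ U ≤ 1
  mψ : ∀ x, Measurable (ψ x)
  bψ : ∀ x U, 0 ≤ ψ x U ∧ ψ x U ≤ K

variable {φ : (X → ℝ) → ℝ} {ψ : X → (X → ℝ) → ℝ} {K : ℝ}

theorem Fn.bm (h : Fn φ ψ K) (S : Finset X) : Bm (gS φ ψ S) := by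
  refine ⟨?_, 1 + ∑ x ∈ S, |K|, by positivity, fun U => ?_⟩
  · exact h.mφ.sub (Finset.measurable_fun_sum S fun x _ => h.mψ x)
  · have h1 : 0 ≤ ∑ x ∈ S, ψ x U := Finset.sum_nonneg fun x _ => (h.bψ x U).1
    have h2 : ∑ x ∈ S, ψ x U ≤ ∑ x ∈ S, |K| :=
      Finset.sum_le_sum fun x _ => (h.bψ x U).2.trans (le_abs_self K)
    have h3 := h.bφ U
    unfold gS
    rw [abs_le]
    constructor <;> linarith

theorem Fn.bmψ (h : Fn φ ψ K) (x : X) : Bm (ψ x) := by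
  refine ⟨h.mψ x, |K|, abs_nonneg K, fun U => ?_⟩
  rw [abs_of_nonneg (h.bψ x U).1]
  exact (h.bψ x U).2.trans (le_abs_self K)

/-- the value one is trivial -/
theorem Fn.one (h : Fn φ ψ K) (S : Finset X) (a : X → ℝ) (r : X → ℝ≥0) : Wf (gS φ ψ S) a r 1 := by
  unfold Wf
  calc ∫ U, gS φ ψ S U ∂(gm a r) ≤ ∫ _, (1 : ℝ) ∂(gm a r) := by
        refine integral_mono ((h.bm S).int _) (integrable_const 1) fun U => ?_
        have h1 : 0 ≤ ∑ x ∈ S, ψ x U := Finset.sum_nonneg fun x _ => (h.bψ x U).1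
        have h3 := h.bφ U
        unfold gS
        simp only
        linarith
    _ = 1 := by simp

/-- marking -/
theorem Fn.mark (h : Fn φ ψ K) (S S' : Finset X) (hS : S ⊆ S') (a : X → ℝ) (r : X → ℝ≥0)
    (c e e' : ℝ) (hc : ∀ x ∈ S' \ S, ∫ U, ψ x U ∂(gm a r) ≤ c)
    (he : e' + ((S' \ S).card : ℝ) * c ≤ e) (hw : Wf (gS φ ψ S') a r e') :
    Wf (gS φ ψ S) a r e := by
  unfold Wf at hw ⊢
  have h1 : ∀ U, gS φ ψ S U = gS φ ψ S' U + ∑ x ∈ S' \ S, ψ x U := by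
    intro U
    unfold gS
    rw [← Finset.sum_sdiff hS]
    ring
  have h2 : ∫ U, gS φ ψ S U ∂(gm a r) =
      (∫ U, gS φ ψ S' U ∂(gm a r)) + ∑ x ∈ S' \ S, ∫ U, ψ x U ∂(gm a r) := by
    rw [← integral_finsetSum _ (fun x _ => (h.bmψ x).int _),
      ← integral_add ((h.bm S').int _) (integrable_finsetSum _ fun x _ => (h.bmψ x).int _)]
    exact integral_congr_ae (Filter.Eventually.of_forall h1)
  have h3 : ∑ x ∈ S' \ S, ∫ U, ψ x U ∂(gm a r) ≤ ((S' \ S).card : ℝ) * c := by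
    rw [← nsmul_eq_mul, ← Finset.sum_const]
    exact Finset.sum_le_sum hc
  rw [h2]
  linarith

/-- the truth has the variance `r - f` -/
def Wg (g : (X → ℝ) → ℝ) (f : ℝ≥0) (a : X → ℝ) (r : X → ℝ≥0) (e : ℝ) : Prop :=
  Wf g a (fun x => r x - f) e

theorem wg_mono {g : (X → ℝ) → ℝ} {f : ℝ≥0} {a : X → ℝ} {r : X → ℝ≥0} {e e' : ℝ}
    (h : Wg g f a r e) (he : e ≤ e') : Wg g f a r e' := le_trans h he

/-- the end: nothing is unknown -/
theorem wg_end {g : (X → ℝ) → ℝ} (hg : Bm g) {f : ℝ≥0} {a : X → ℝ} {r : X → ℝ≥0} {e : ℝ}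
    (hr : ∀ x, r x ≤ f) (h : g a ≤ e) : Wg g f a r e := by
  unfold Wg Wf
  have h1 : (fun x => r x - f) = fun _ : X => (0 : ℝ≥0) := by
    funext x
    exact tsub_eq_zero_of_le (hr x)
  have h2 : gm a (fun _ : X => (0 : ℝ≥0)) = Measure.dirac a := by
    have h3 := gm_shift (fun _ : X => (0 : ℝ)) a (fun _ => 0)
    have h4 : gm (fun _ : X => (0 : ℝ)) (fun _ => 0) = Measure.dirac (fun _ => 0) := by
      have h5 := gm_ae_zero (fun _ : X => (0 : ℝ≥0))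
      have h6 : ∀ᵐ ζ ∂(gm (fun _ : X => (0 : ℝ)) (fun _ => 0)), ζ = fun _ => (0 : ℝ) := by
        filter_upwards [h5] with ζ hζ
        funext x
        exact hζ x rfl
      refine Measure.ext fun s hs => ?_
      rw [Measure.dirac_apply' _ hs]
      by_cases hm : (fun _ : X => (0 : ℝ)) ∈ s
      · rw [Set.indicator_of_mem hm, Pi.one_apply]
        have h7 : s =ᵐ[gm (fun _ : X => (0 : ℝ)) (fun _ => 0)] Set.univ := by
          filter_upwards [h6] with ζ hζ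
          subst hζ
          exact propext ⟨fun _ => trivial, fun _ => hm⟩
        rw [measure_congr h7, measure_univ]
      · rw [Set.indicator_of_notMem hm]
        have h7 : s =ᵐ[gm (fun _ : X => (0 : ℝ)) (fun _ => 0)] (∅ : Set (X → ℝ)) := by
          filter_upwards [h6] with ζ hζ
          subst hζ
          exact propext ⟨fun h => (hm h).elim, fun h => h.elim⟩
        rw [measure_congr h7, measure_empty]
    have hm : Measurable fun y : X → ℝ => a + y := by fun_prop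
    rw [h4, Measure.map_dirac' hm] at h3
    have h8 : (fun x => (0 : ℝ) + a x) = a := by funext x; simp
    rw [h8] at h3
    rw [← h3]
    congr 1
    funext x
    simp
  rw [h1, h2, integral_dirac' _ _ hg.meas.stronglyMeasurable]
  exact h

theorem tsub_comm' (r : X → ℝ≥0) (f : ℝ≥0) (τ : X → ℝ≥0) :
    (fun x => (r x - f) - τ x) = fun x => (r x - τ x) - f := by
  funext x
  exact tsub_right_comm

section trial

variable {Y : Type} [DecidableEq Y]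
variable {ch : ℕ → Y → Finset Y} {J M : ℕ} {W : ℕ → ℝ} {bb : ℕ → Finset Y} {n : ℕ} {e₀ : ℝ}

/-- TRIAL -/
theorem wg_trial (hW : ∀ j, 0 ≤ W j) (hT : H72.Tree ch) {x : ℕ × Y → ℝ} (h0 : ∀ c, 0 ≤ x c)
    (c : ℕ × Y) {p : ℝ} (hp : 0 ≤ p) (hpx : p ≤ x c) (hx1 : x c ≤ 1) (f : ℝ≥0)
    (a : X → ℝ) (r τ : X → ℝ≥0) (hτ : ∀ x, τ x ≤ r x - f) {g : (X → ℝ) → ℝ} (hg : Bm g)
    (R : Set (X → ℝ)) (hR : gm (fun _ => 0) τ R ≤ ENNReal.ofReal p)
    (h₁ : ∀ ζ : X → ℝ, (∀ x, τ x = 0 → ζ x = 0) → ζ ∉ R →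
      Wg g f (fun x => a x + ζ x) (fun x => r x - τ x)
        (vw ch J M W bb e₀ n (Function.update x c (x c - p))))
    (h₂ : ∀ ζ : X → ℝ, (∀ x, τ x = 0 → ζ x = 0) →
      Wg g f (fun x => a x + ζ x) (fun x => r x - τ x)
        (vw ch J M W bb e₀ n (Function.update x c 1))) :
    Wg g f a r (vw ch J M W bb e₀ n x) := by
  refine wf_trial hW hT h0 c hp hpx hx1 a _ τ hτ hg R hR (fun ζ hζ hR => ?_) (fun ζ hζ => ?_)
  · rw [tsub_comm']
    exact h₁ ζ hζ hR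
  · rw [tsub_comm']
    exact h₂ ζ hζ

end trial

/-- AN ATTEMPT -/
theorem wg_att {g : (X → ℝ) → ℝ} (hg : Bm g) (R Q : Finset X) (Ok : (X → ℝ) → Cfg X → Prop)
    (T : Cfg X) (a : X → ℝ) (r : X → ℝ≥0) (f : ℝ≥0) (c p e₁ e₂ : ℝ) (hc : 1 ≤ c)
    (hc2 : c ^ R.card ≤ 2) (hRQ : Disjoint R Q) (hp : 0 ≤ p) (he : e₁ ≤ e₂)
    (hR : ∀ x ∈ R, a x = T.V x ∧ r x = T.s x)
    (hf : ∀ x ∈ R, f < T.s x ∧ Real.sqrt ((T.s x : ℝ) / ((T.s x - f : ℝ≥0) : ℝ)) ≤ c)
    (hAtt : ∀ v, Att R Q v (Ok v) T (ENNReal.ofReal p))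
    (h₁ : ∀ v T' a' r', Ok v T' → T'.mb = T.mb → (∀ x ∈ R, a' x = T'.V x ∧ r' x = T'.s x) →
      (∀ x ∈ R, T'.s x = 0 ∨ T'.V x = T.V x ∧ T'.s x = T.s x) →
      (∀ x ∈ Q, a' x = v x ∧ r' x = 0) →
      (∀ x, x ∉ Q → x ∉ R → a' x = a x ∧ r' x = r x ∧ T'.V x = T.V x ∧ T'.s x = T.s x) →
      Wg g f a' r' e₁)
    (h₂ : ∀ a' r', (∀ x, x ∉ Q → x ∉ R → a' x = a x ∧ r' x = r x) → Wg g f a' r' e₂) :
    Wg g f a r (e₁ + 2 * p * (e₂ - e₁)) := by
  have hQR : ∀ x, x ∈ R → x ∉ Q := fun x hx hq => Finset.disjoint_left.mp hRQ hx hq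
  refine atf hg R Q Ok T a (fun x => r x - f) f c p e₁ e₂ hc hc2 hRQ hp he
    (fun x hx => ⟨(hR x hx).1, by rw [(hR x hx).2]⟩) hf hAtt ?_ ?_
  · intro v T' a' r' hOk hmb q1 q2 q3 q4
    have h := h₁ v T' a' (fun x => if x ∈ Q then 0 else if x ∈ R then T'.s x else r x) hOk hmb
      (fun x hx => ⟨(q1 x hx).1, by rw [if_neg (hQR x hx), if_pos hx]⟩) q2
      (fun x hx => ⟨(q3 x hx).1, by rw [if_pos hx]⟩)
      (fun x hx hx2 => ⟨(q4 x hx hx2).1, by rw [if_neg hx, if_neg hx2],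
        (q4 x hx hx2).2.2⟩)
    unfold Wg at h
    have e1 : (fun x => (if x ∈ Q then 0 else if x ∈ R then T'.s x else r x) - f) = r' := by
      funext x
      by_cases hxQ : x ∈ Q
      · rw [if_pos hxQ, (q3 x hxQ).2, zero_tsub]
      · rw [if_neg hxQ]
        by_cases hxR : x ∈ R
        · rw [if_pos hxR, (q1 x hxR).2]
        · rw [if_neg hxR, (q4 x hxQ hxR).2.1]
    rw [e1] at h
    exact h
  · intro a' r' q
    have h := h₂ a' (fun x => if x ∈ Q ∪ R then r' x + f else r x) (fun x hx hx2 => by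
      refine ⟨(q x hx hx2).1, ?_⟩
      rw [if_neg]
      rw [Finset.mem_union]
      rintro (h | h)
      · exact hx h
      · exact hx2 h)
    unfold Wg at h
    have e1 : (fun x => (if x ∈ Q ∪ R then r' x + f else r x) - f) = r' := by
      funext x
      by_cases hxQ : x ∈ Q ∪ R
      · rw [if_pos hxQ, add_tsub_cancel_right]
      · rw [if_neg hxQ]
        rw [Finset.mem_union, not_or] at hxQ
        exact ((q x hxQ.1 hxQ.2).2).symm
    rw [e1] at h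
    exact h

end Pool.Agent.ANP.AC
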