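import Pool.Agent.Helper16_AC.Rel

/-! The protocol for a functional: the final theorem. -/

set_option autoImplicit false
set_option linter.unusedSectionVars false

open MeasureTheory ProbabilityTheory

open scoped ENNReal NNReal BigOperators

noncomputable section

namespace Pool.Agent.ANP.AC

open Pool.Agent.ANP Pool.Agent.ANP.H16

variable {X : Type} [Fintype X] [DecidableEq X]
  {Γ : Geo X} {d : ℕ} {o : X} {th : ℝ≥0} {kk : ℕ → ℕ} {cl : ℕ → ℝ≥0}
  {Kn Dn : ℕ → ℕ} {p π c W : ℕ → ℝ} {K e : ℝ} {φ : (X → ℝ) → ℝ} {ψ : X → (X → ℝ) → ℝ}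
  {LI : ℕ → Lb X → Prop}

/-- the end -/
theorem fin_step2 (H : Hp Γ d o th kk cl Kn Dn p π c W K e φ ψ LI)
    (A : Ana Γ d o ∅ th kk cl Kn Dn p)
    (hend : ∀ (T : Cfg X) (run : Finset X), A.HS (Γ.N + 1) (kk (Γ.N + 1)) T run →
      Fc Γ kk cl Dn (Γ.N + 1) (kk (Γ.N + 1)) ∅ T run → (∀ x, x ∉ run → T.s x = 0) →
      φ T.V ≤ e + ∑ x ∈ Finset.univ \ run, ψ x T.V)
    (S : Finset X) (T : Cfg X) (L : Lb X) (a : X → ℝ) (r : X → ℝ≥0) (x : ℕ × X → ℝ)
    (hB : Bs Γ kk cl Dn π LI (Γ.N + 1) (kk (Γ.N + 1)) ∅ T L a r x)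
    (hMk : Mk Γ cl (Γ.N + 1) (kk (Γ.N + 1)) L r S)
    (hHS : A.HS (Γ.N + 1) (kk (Γ.N + 1)) T L.run) :
    Wg (gS φ ψ S) (cl (kk (Γ.N + 1))) a r (vx Γ W e (Γ.N + 1) x) := by
  have h := H.pr
  have hfac := h.fac _ L hB.li
  have hop : L.op = ∅ := hMk.lst (Nat.le_succ _)
  by_cases hp : L.pend = ∅
  · have hnp : ∀ y, y ∉ L.pend := fun y hy => by
      rw [hp] at hy
      exact Finset.notMem_empty y hy
    have hdead : ∀ y, y ∉ L.run → T.s y = 0 := fun y hy => hB.dead y hy (hnp y)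
    have ha : a = T.V := by
      funext y
      exact (hB.tru y (hnp y)).1
    have hr : ∀ y, r y ≤ cl (kk (Γ.N + 1)) := by
      intro y
      rw [(hB.tru y (hnp y)).2]
      by_cases hy : y ∈ L.run
      · have := hB.fc.runs y hy
        rw [if_neg (Finset.notMem_empty y)] at this
        rw [this]
      · rw [hdead y hy]
        exact zero_le
    refine wg_mono (wg_end (H.fn.bm S) (e := e) hr ?_) ?_
    · have h1 := hend T L.run hHS hB.fc hdead
      have h2 : ∑ y ∈ Finset.univ \ L.run, ψ y T.V ≤ ∑ y ∈ S, ψ y T.V := by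
        refine Finset.sum_le_sum_of_subset_of_nonneg (fun y hy => ?_) fun y _ _ => (H.fn.bψ y _).1
        exact hMk.dead y (Finset.mem_sdiff.mp hy).2 (hnp y)
      rw [ha]
      unfold gS
      linarith
    · unfold vx vw
      have := wph_nonneg (ch := Γ.ch) (J := Γ.J) (M := Γ.N + 2) (bb := bb Γ) (n := Γ.N + 1) H.W0
        hB.x0
      linarith
  · obtain ⟨y, hy⟩ := Finset.nonempty_iff_ne_empty.2 hp
    have hyo : y ∉ L.op := by
      rw [hop]
      exact Finset.notMem_empty y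
    have h1 := hfac.npe y hy hyo
    obtain ⟨w, hw, _⟩ := (mem_enl Γ (Γ.N + 1) (L.bad (Γ.N + 1)) 1 y).mp h1
    exact vx_one H hB.x0 le_rfl (Nat.lt_succ_self _) H.w3 (h.geo.idem _ _)
      (hB.qq _ _ hw) S a r

/-- from the stage `k` to the end of the super-stage -/
theorem super_mid2 (H : Hp Γ d o th kk cl Kn Dn p π c W K e φ ψ LI)
    (A : Ana Γ d o ∅ th kk cl Kn Dn p) (S : Finset X) {n : ℕ} (hn : n ≤ Γ.N)
    (next : ∀ (S' : Finset X) (T : Cfg X) (L : Lb X) (a : X → ℝ) (r : X → ℝ≥0) (x : ℕ × X → ℝ),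
      Bs Γ kk cl Dn π LI (n + 1) (kk (n + 1)) ∅ T L a r x → Mk Γ cl (n + 1) (kk (n + 1)) L r S' →
      A.HS (n + 1) (kk (n + 1)) T L.run →
      (∀ B, Γ.bl (n + 1) B = B → B ∉ L.bad (n + 1) →
        2 * p (n + 1) * ((kk (n + 2) : ℝ) - kk (n + 1) + (Γ.L (n + 1) : ℝ) ^ d) ≤ x (n + 1, B)) →
      Wg (gS φ ψ S') (cl (kk (Γ.N + 1))) a r (vx Γ W e (n + 1) x)) (j : ℕ) :
    ∀ (k : ℕ), kk n ≤ k → k + j = kk (n + 1) →
    ∀ (T : Cfg X) (L : Lb X) (a : X → ℝ) (r : X → ℝ≥0) (x : ℕ × X → ℝ),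
      Bs Γ kk cl Dn π LI n k ∅ T L a r x → Mk Γ cl n k L r S → A.HS n k T L.run →
      (∀ B, Γ.bl n B = B → B ∉ L.bad n →
        2 * p n * ((kk (n + 1) : ℝ) - k + (Γ.L n : ℝ) ^ d) ≤ x (n, B)) →
      Wg (gS φ ψ S) (cl (kk (Γ.N + 1))) a r (vx Γ W e n x) := by
  induction j with
  | zero =>
    intro k _ hkj T L a r x hB hMk hHS hc
    have hk : k = kk (n + 1) := by omega
    subst hk
    exact rel_step2 H A S hn next T L a r x hB hMk hHS hc
  | succ j ih =>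
    intro k hk hkj T L a r x hB hMk hHS hc
    refine stage_step2 H A S hn hk (by omega) (fun T L a r x hB hMk hHS hc => ?_) T L a r x hB hMk
      hHS hc
    refine ih (k + 1) (by omega) (by omega) T L a r x hB hMk hHS fun B h1 h2 => ?_
    have := hc B h1 h2
    push_cast
    exact this

/-- from the super-stage `n` to the end -/
theorem all_super2 (H : Hp Γ d o th kk cl Kn Dn p π c W K e φ ψ LI)
    (A : Ana Γ d o ∅ th kk cl Kn Dn p)
    (hend : ∀ (T : Cfg X) (run : Finset X), A.HS (Γ.N + 1) (kk (Γ.N + 1)) T run →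
      Fc Γ kk cl Dn (Γ.N + 1) (kk (Γ.N + 1)) ∅ T run → (∀ x, x ∉ run → T.s x = 0) →
      φ T.V ≤ e + ∑ x ∈ Finset.univ \ run, ψ x T.V) (j : ℕ) :
    ∀ (n : ℕ), n + j = Γ.N + 1 →
    ∀ (S : Finset X) (T : Cfg X) (L : Lb X) (a : X → ℝ) (r : X → ℝ≥0) (x : ℕ × X → ℝ),
      Bs Γ kk cl Dn π LI n (kk n) ∅ T L a r x → Mk Γ cl n (kk n) L r S →
      A.HS n (kk n) T L.run →
      (∀ B, Γ.bl n B = B → B ∉ L.bad n →
        2 * p n * ((kk (n + 1) : ℝ) - kk n + (Γ.L n : ℝ) ^ d) ≤ x (n, B)) →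
      Wg (gS φ ψ S) (cl (kk (Γ.N + 1))) a r (vx Γ W e n x) := by
  induction j with
  | zero =>
    intro n hn S T L a r x hB hMk hHS _
    have hn' : n = Γ.N + 1 := by omega
    subst hn'
    exact fin_step2 H A hend S T L a r x hB hMk hHS
  | succ j ih =>
    intro n hn S T L a r x hB hMk hHS hc
    have hlt := H.pr.kk_le n
    exact super_mid2 H A S (by omega) (ih (n + 1) (by omega)) (kk (n + 1) - kk n) (kk n) le_rfl
      (by omega) T L a r x hB hMk hHS hc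

/-- PRT2 -/
theorem prt2 (hLab : LabStmt) : ACX.Prt2Stmt := by
  intro X _ _ Γ d o th kk cl Kn Dn p π c W K e φ ψ A V₀ m₁ hφ hφ1 hψ hψ1 he hG hS hth0 hth1 hDn hk0
    hkk hcl hcl0 hN hp hpp hπ hdens hc0 hcost hW0 hwgt hw1 hw2 hw3 hini hend
  obtain ⟨LI, l0, l1, l2, l3, l4⟩ := hLab X Γ d o Kn Dn hG hS hDn
  have h : Pr Γ d o ∅ th kk cl Kn Dn (fun n => 2 * p n) π LI :=
    ⟨MeasurableSet.empty, hG, hS, hkk, hth0, hth1, hcl, hcl0,
      fun n => mul_nonneg (by norm_num) (hp n), hpp, l1, l2, l3, l4⟩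
  have H : Hp Γ d o th kk cl Kn Dn p π c W K e φ ψ LI :=
    ⟨h, ⟨hφ, hφ1, hψ, hψ1⟩, he, hN, hp, hW0, hc0, hdens, hcost, hwgt, hw1, hw2, hw3⟩
  have hπ0 : ∀ n, 0 ≤ π n := by
    intro n
    refine le_trans (mul_nonneg (h.p0 n) ?_) (hpp n)
    have h1 : (kk n : ℝ) ≤ kk (n + 1) := by exact_mod_cast (hkk n).le
    have h2 : (0 : ℝ) ≤ (Γ.L n : ℝ) ^ d := by positivity
    linarith
  have hB : Bs Γ kk cl Dn π LI 0 (kk 0) ∅ ⟨V₀, fun _ => cl 0, m₁⟩ (Lb.ini X)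
      V₀ (fun _ => cl 0) (fun i => π i.1) := by
    refine ⟨l0, fun _ _ => rfl, ?_, fun c => hπ0 c.1, fun c => hπ c.1,
      fun j B hB => absurd hB (Finset.notMem_empty B), ⟨fun y _ => ?_, fun y hy => ?_, ?_,
        fun m hm => absurd hm (by omega)⟩, fun y hy => absurd hy (Finset.notMem_empty y),
      fun y hy => absurd (Finset.mem_univ y) hy, fun y hy => absurd hy (Finset.notMem_empty y),
      fun y _ => ⟨rfl, rfl⟩, fun j _ B => le_rfl⟩
    · exact Finset.disjoint_empty_left _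
    · rw [if_neg (Finset.notMem_empty y), hk0]
    · exact absurd (Finset.mem_univ y) hy
    · refine ⟨fun _ => ∅, fun y hy => absurd hy hcl0.ne', fun j B => ?_⟩
      rw [Finset.empty_inter, Finset.card_empty]
      exact Nat.zero_le _
  have hMk : Mk Γ cl 0 (kk 0) (Lb.ini X) (fun _ => cl 0) ∅ := by
    refine ⟨fun y _ => ?_, fun y hy => absurd (Finset.mem_univ y) hy,
      fun _ y hy => absurd hy (Finset.notMem_empty y), fun _ => rfl⟩
    rw [hk0]
    exact h.cl_anti (Nat.zero_le _)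
  have h1 := all_super2 H A hend (Γ.N + 1) 0 (by omega) ∅ _ (Lb.ini X) _ _ _ hB hMk
    (by rw [hk0]; exact hini) fun B _ _ => hpp 0
  unfold Wg Wf vx vw wph at h1
  have e1 : gS φ ψ (∅ : Finset X) = φ := by
    funext U
    unfold gS
    rw [Finset.sum_empty, sub_zero]
  rw [e1, ← Finset.range_eq_Ico] at h1
  exact h1

end Pool.Agent.ANP.AC
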