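import Pool.Agent.Helper16_AC.Stage
import Pool.Agent.Helper16_ANP.PrtE

/-! The release phase and the next super-stage. -/

set_option autoImplicit false
set_option linter.unusedSectionVars false

open MeasureTheory ProbabilityTheory

open scoped ENNReal NNReal BigOperators

noncomputable section

namespace Pool.Agent.ANP.AC

open Pool.Agent.ANP Pool.Agent.ANP.H16

variable {X : Type} [Fintype X] [DecidableEq X]

/-- the density of an attempt -/
theorem fac_two (s f : ℝ≥0) (m : ℕ) (hs : 0 < s) (hf : f < s) (h : 2 * (f : ℝ) * m ≤ s) :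
    Real.sqrt ((s : ℝ) / ((s - f : ℝ≥0) : ℝ)) ^ m ≤ 2 := by
  have hs' : (0 : ℝ) < s := by exact_mod_cast hs
  have hf' : (f : ℝ) < s := by exact_mod_cast hf
  have e1 : ((s - f : ℝ≥0) : ℝ) = (s : ℝ) - f := NNReal.coe_sub hf.le
  rw [e1]
  have hd : (0 : ℝ) < (s : ℝ) - f := by linarith
  set u : ℝ := (f : ℝ) / s with hu
  have hu0 : 0 ≤ u := div_nonneg (NNReal.coe_nonneg f) hs'.le
  have hu1 : u ≤ 1 := by rw [hu, div_le_one hs']; exact hf'.le
  have e2 : (s : ℝ) / ((s : ℝ) - f) = (1 + -u)⁻¹ := by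
    have e3 : 1 + -u = ((s : ℝ) - f) / s := by
      rw [hu, sub_div, div_self hs'.ne']
      ring
    rw [e3, inv_div]
  have h1 : 1 + (m : ℝ) * (-u) ≤ (1 + -u) ^ m := one_add_mul_le_pow (by linarith) m
  have h2 : (m : ℝ) * u ≤ 1 / 2 := by
    rw [hu, ← mul_div_assoc, div_le_iff₀ hs']
    linarith
  have h3 : 1 / 2 ≤ (1 + -u) ^ m := by linarith
  have h4 : ((s : ℝ) / ((s : ℝ) - f)) ^ m ≤ 2 := by
    rw [e2, inv_pow]
    calc ((1 + -u) ^ m)⁻¹ ≤ (1 / 2 : ℝ)⁻¹ := inv_anti₀ (by norm_num) h3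
      _ = 2 := by norm_num
  have h5 : 0 ≤ (s : ℝ) / ((s : ℝ) - f) := by positivity
  have h6 : (Real.sqrt ((s : ℝ) / ((s : ℝ) - f)) ^ m) ^ 2 ≤ 2 ^ 2 := by
    rw [← pow_mul, mul_comm m 2, pow_mul, Real.sq_sqrt h5]
    linarith
  exact le_of_sq_le_sq h6 (by norm_num)

theorem card_nbh {Γ : Geo X} {d : ℕ} (hG : GeoOk Γ d) (Q : Finset X) (t : ℕ) :
    (Γ.nbh Q t).card ≤ Q.card * (2 * t + 1) ^ d := by
  have h1 : Γ.nbh Q t ⊆ Q.biUnion fun q => ({y | Γ.D q y ≤ t} : Finset X) := by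
    intro y hy
    obtain ⟨q, hq, hD⟩ := (mem_nbh Γ Q t y).mp hy
    rw [Finset.mem_biUnion]
    refine ⟨q, hq, ?_⟩
    rw [Finset.mem_filter]
    refine ⟨Finset.mem_univ y, ?_⟩
    rw [hG.comm]
    exact hD
  refine (Finset.card_le_card h1).trans (Finset.card_biUnion_le.trans ?_)
  calc ∑ q ∈ Q, ({y | Γ.D q y ≤ t} : Finset X).card ≤ ∑ q ∈ Q, (2 * t + 1) ^ d :=
        Finset.sum_le_sum fun q _ => hG.vol q t
    _ = Q.card * (2 * t + 1) ^ d := by rw [Finset.sum_const, smul_eq_mul]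

theorem nbh_enl_sub {Γ : Geo X} (n : ℕ) (𝓑 : Finset X) (k t : ℕ) :
    Γ.nbh (Γ.enl n 𝓑 k) t ⊆ 𝓑.biUnion fun B => Γ.nbh (Γ.enl n {B} k) t := by
  intro x hx
  obtain ⟨y, hy, hD⟩ := (mem_nbh Γ _ t x).mp hx
  obtain ⟨z, hz, hD'⟩ := (mem_enl Γ n 𝓑 k y).mp hy
  rw [Finset.mem_biUnion]
  refine ⟨Γ.bl n z, hz, (mem_nbh Γ _ t x).mpr ⟨y, ?_, hD⟩⟩
  exact (mem_enl Γ n _ k y).mpr ⟨z, Finset.mem_singleton_self _, hD'⟩

variable {Γ : Geo X} {d : ℕ} {o : X} {th : ℝ≥0} {kk : ℕ → ℕ} {cl : ℕ → ℝ≥0}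
  {Kn Dn : ℕ → ℕ} {p π c W : ℕ → ℝ} {K e : ℝ} {φ : (X → ℝ) → ℝ} {ψ : X → (X → ℝ) → ℝ}
  {LI : ℕ → Lb X → Prop}

/-- a bad block with weight one -/
theorem vx_one (H : Hp Γ d o th kk cl Kn Dn p π c W K e φ ψ LI) {x : ℕ × X → ℝ}
    (h0 : ∀ c, 0 ≤ x c) {n j : ℕ} (hn : n ≤ j) (hj : j < Γ.N + 2) (h1 : 1 ≤ W j) {B : X}
    (hB : Γ.bl j B = B) (h : 1 ≤ H72.QQ Γ.ch Γ.J x j B) (S : Finset X) (a : X → ℝ)
    (r : X → ℝ≥0) : Wg (gS φ ψ S) (cl (kk (Γ.N + 1))) a r (vx Γ W e n x) := by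
  refine wg_mono (H.fn.one S a _) ?_
  have h2 := wph_one (J := Γ.J) (M := Γ.N + 2) (bb := bb Γ) (n := n) H.W0 h0 hn hj h1
    (B := B) (by unfold bb; rw [Finset.mem_filter]; exact ⟨Finset.mem_univ B, hB⟩) h
  unfold vx vw
  have := H.e0
  linarith

/-- the next super-stage -/
theorem trans2 (H : Hp Γ d o th kk cl Kn Dn p π c W K e φ ψ LI)
    (A : Ana Γ d o ∅ th kk cl Kn Dn p) (S : Finset X) {n : ℕ} (hn : n ≤ Γ.N)
    (next : ∀ (S' : Finset X) (T : Cfg X) (L : Lb X) (a : X → ℝ) (r : X → ℝ≥0) (x : ℕ × X → ℝ),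
      Bs Γ kk cl Dn π LI (n + 1) (kk (n + 1)) ∅ T L a r x → Mk Γ cl (n + 1) (kk (n + 1)) L r S' →
      A.HS (n + 1) (kk (n + 1)) T L.run →
      (∀ B, Γ.bl (n + 1) B = B → B ∉ L.bad (n + 1) →
        2 * p (n + 1) * ((kk (n + 2) : ℝ) - kk (n + 1) + (Γ.L (n + 1) : ℝ) ^ d) ≤ x (n + 1, B)) →
      Wg (gS φ ψ S') (cl (kk (Γ.N + 1))) a r (vx Γ W e (n + 1) x))
    (T₀ : Cfg X) (run₀ : Finset X) (hHS : A.HS n (kk (n + 1)) T₀ run₀)
    (hFc : Fc Γ kk cl Dn n (kk (n + 1)) ∅ T₀ run₀)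
    (P : Finset X) (T : Cfg X) (L : Lb X) (a : X → ℝ) (r : X → ℝ≥0) (x : ℕ × X → ℝ)
    (hB : Bs Γ kk cl Dn π LI n (kk (n + 1)) ∅ T L a r x) (hMk : Mk Γ cl n (kk (n + 1)) L r S)
    (hHR : A.HR n T₀ run₀ P T L.run) (hel : ∀ c ∈ L.op, ¬ L.elig Γ n (L.cmp Γ n c)) :
    Wg (gS φ ψ S) (cl (kk (Γ.N + 1))) a r (vx Γ W e n x) := by
  have h := H.pr
  have hfac := h.fac n L hB.li
  have hB0 := hB.next h hel T.mb
  have hsub : (L.nxt Γ n).run ⊆ L.run := by
    show (L.run \ _) \ _ ⊆ L.run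
    exact Finset.sdiff_subset.trans Finset.sdiff_subset
  have hfc' : Fc Γ kk cl Dn (n + 1) (kk (n + 1)) ∅ T (L.nxt Γ n).run := hB0.fc
  obtain ⟨m, hm⟩ := A.rfin n T₀ run₀ P T L.run (L.nxt Γ n).run hn hHS hFc hB.fc hHR hsub hfc'
  have hB1 := hB.next h hel m
  have hcoin : ∀ B, Γ.bl (n + 1) B = B → B ∉ (L.nxt Γ n).bad (n + 1) →
      2 * p (n + 1) * ((kk (n + 2) : ℝ) - kk (n + 1) + (Γ.L (n + 1) : ℝ) ^ d) ≤ x (n + 1, B) := by
    intro B _ _
    refine le_trans ?_ (hB.cj (n + 1) (Nat.lt_succ_self n) B)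
    exact h.pp (n + 1)
  have hfac1 := h.fac (n + 1) (L.nxt Γ n) hB1.li
  have hbadn : (L.nxt Γ n).bad n = L.bad n := by
    show Function.update L.bad (n + 1) (L.bad (n + 1) ∪ L.many Γ n) n = _
    rw [Function.update_of_ne (by omega)]
  have hopn := hfac1.opn n rfl
  rw [hbadn] at hopn
  -- outside of the new labels
  have hout : ∀ y, y ∉ (L.nxt Γ n).run → y ∉ (L.nxt Γ n).pend → y ∈ S := by
    intro y h1 h2
    have hrun : (L.nxt Γ n).run = (L.run \ Γ.nbh (L.op ∩ L.pend) (3 * Γ.ρ n)) \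
      Γ.enl (n + 1) (L.many Γ n) 1 := rfl
    have hpend : (L.nxt Γ n).pend = (L.pend ∪ (L.run ∩ Γ.nbh (L.op ∩ L.pend) (3 * Γ.ρ n))) ∪
      ((L.run \ Γ.nbh (L.op ∩ L.pend) (3 * Γ.ρ n)) ∩ Γ.enl (n + 1) (L.many Γ n) 1) := rfl
    rw [hrun, Finset.mem_sdiff, Finset.mem_sdiff] at h1
    rw [hpend, Finset.mem_union, Finset.mem_union, Finset.mem_inter (s₁ := L.run),
      Finset.mem_inter (s₁ := L.run \ _), Finset.mem_sdiff] at h2
    refine hMk.dead y ?_ ?_ <;> tauto
  by_cases hN : n + 1 < Γ.N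
  · -- mark
    set S' : Finset X := S ∪ Γ.nbh (Γ.enl n (L.bad n) 2) (Γ.ρ (n + 1)) with hS'
    have hMk' : Mk Γ cl (n + 1) (kk (n + 1)) (L.nxt Γ n) r S' := by
      refine ⟨fun y hy => hMk.fresh y fun hyS => hy (Finset.mem_union_left _ hyS),
        fun y h1 h2 => Finset.mem_union_left _ (hout y h1 h2), fun _ y hy z hz => ?_,
        fun h3 => absurd h3 (by omega)⟩
      exact Finset.mem_union_right _ ((mem_nbh Γ _ _ z).mpr ⟨y, hopn hy, hz⟩)
    have hw := next S' (T.rg m) (L.nxt Γ n) a r x hB1 hMk' hm hcoin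
    unfold Wg at hw ⊢
    have hcard : ((S' \ S).card : ℝ) * c (n + 1) ≤
        W n * ∑ B ∈ bb Γ n, H72.QQ Γ.ch Γ.J x n B := by
      have h1 : (S' \ S).card ≤ ∑ B ∈ L.bad n, (Γ.nbh (Γ.enl n {B} 2) (Γ.ρ (n + 1))).card := by
        refine (Finset.card_le_card (t := Γ.nbh (Γ.enl n (L.bad n) 2) (Γ.ρ (n + 1))) ?_).trans
          ((Finset.card_le_card (nbh_enl_sub n (L.bad n) 2 (Γ.ρ (n + 1)))).trans
            Finset.card_biUnion_le)
        intro y hy
        rw [Finset.mem_sdiff, hS', Finset.mem_union] at hy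
        tauto
      have h2 : ((S' \ S).card : ℝ) ≤
          ∑ B ∈ L.bad n, ((Γ.nbh (Γ.enl n {B} 2) (Γ.ρ (n + 1))).card : ℝ) := by
        exact_mod_cast h1
      calc ((S' \ S).card : ℝ) * c (n + 1)
          ≤ (∑ B ∈ L.bad n, ((Γ.nbh (Γ.enl n {B} 2) (Γ.ρ (n + 1))).card : ℝ)) * c (n + 1) :=
            mul_le_mul_of_nonneg_right h2 (H.c0 _)
        _ = ∑ B ∈ L.bad n, ((Γ.nbh (Γ.enl n {B} 2) (Γ.ρ (n + 1))).card : ℝ) * c (n + 1) :=
            Finset.sum_mul _ _ _
        _ ≤ ∑ B ∈ L.bad n, W n * H72.QQ Γ.ch Γ.J x n B := by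
            refine Finset.sum_le_sum fun B hBb => ?_
            have h3 := H.wgt (n + 1) (by omega) hN B
            have h4 := hB.qq n B hBb
            have h5 := mul_le_mul_of_nonneg_left h4 (H.W0 n)
            rw [mul_one] at h5
            exact h3.trans h5
        _ ≤ ∑ B ∈ bb Γ n, W n * H72.QQ Γ.ch Γ.J x n B := by
            refine Finset.sum_le_sum_of_subset_of_nonneg (fun B hBb => ?_)
              (fun B _ _ => mul_nonneg (H.W0 n) (H72.qq_nonneg hB.x0 n B))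
            unfold bb
            rw [Finset.mem_filter]
            exact ⟨Finset.mem_univ B, hfac.rep n B hBb⟩
        _ = W n * ∑ B ∈ bb Γ n, H72.QQ Γ.ch Γ.J x n B := by rw [Finset.mul_sum]
    refine H.fn.mark S S' Finset.subset_union_left a _ (c (n + 1)) _ _ (fun y hy => ?_) ?_ hw
    · refine H.cost (n + 1) (by omega) hN y a _ ?_
      have h1 := hMk.fresh y (Finset.mem_sdiff.mp hy).2
      rw [h.cls] at h1
      exact h1.trans le_tsub_add
    · unfold vx vw
      rw [wph_succ (J := Γ.J) (W := W) (bb := bb Γ) (by omega : n < Γ.N + 2) x]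
      linarith
  · -- nothing may be bad
    by_cases hbad : L.bad n = ∅
    · have hop : (L.nxt Γ n).op = ∅ := by
        rw [Finset.eq_empty_iff_forall_notMem]
        intro y hy
        have h1 := hopn hy
        rw [hbad, mem_enl] at h1
        obtain ⟨z, hz, _⟩ := h1
        exact Finset.notMem_empty _ hz
      have hMk' : Mk Γ cl (n + 1) (kk (n + 1)) (L.nxt Γ n) r S :=
        ⟨hMk.fresh, hout, fun _ y hy => absurd hy (by rw [hop]; exact Finset.notMem_empty y),
          fun _ => hop⟩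
      refine wg_mono (next S (T.rg m) (L.nxt Γ n) a r x hB1 hMk' hm hcoin) ?_
      have := wph_succ_le (ch := Γ.ch) (J := Γ.J) (M := Γ.N + 2) (bb := bb Γ) (n := n) H.W0 hB.x0
      unfold vx vw
      linarith
    · obtain ⟨B, hBb⟩ := Finset.nonempty_iff_ne_empty.2 hbad
      have hWn : 1 ≤ W n := by
        rcases Nat.lt_or_ge n Γ.N with h1 | h1
        · have h2 : n = Γ.N - 1 := by omega
          rw [h2]
          exact H.w1
        · have h2 : n = Γ.N := by omega
          rw [h2]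
          exact H.w2
      exact vx_one H hB.x0 le_rfl (by omega) hWn (hfac.rep n B hBb) (hB.qq n B hBb) S a r

/-- the release phase -/
theorem rel_mid2 (H : Hp Γ d o th kk cl Kn Dn p π c W K e φ ψ LI)
    (A : Ana Γ d o ∅ th kk cl Kn Dn p) (S : Finset X) {n : ℕ} (hn : n ≤ Γ.N)
    (next : ∀ (S' : Finset X) (T : Cfg X) (L : Lb X) (a : X → ℝ) (r : X → ℝ≥0) (x : ℕ × X → ℝ),
      Bs Γ kk cl Dn π LI (n + 1) (kk (n + 1)) ∅ T L a r x → Mk Γ cl (n + 1) (kk (n + 1)) L r S' →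
      A.HS (n + 1) (kk (n + 1)) T L.run →
      (∀ B, Γ.bl (n + 1) B = B → B ∉ L.bad (n + 1) →
        2 * p (n + 1) * ((kk (n + 2) : ℝ) - kk (n + 1) + (Γ.L (n + 1) : ℝ) ^ d) ≤ x (n + 1, B)) →
      Wg (gS φ ψ S') (cl (kk (Γ.N + 1))) a r (vx Γ W e (n + 1) x))
    (T₀ : Cfg X) (run₀ : Finset X) (hHS : A.HS n (kk (n + 1)) T₀ run₀)
    (hFc : Fc Γ kk cl Dn n (kk (n + 1)) ∅ T₀ run₀) (W' : Finset X) :
    ∀ (P : Finset X) (T : Cfg X) (L : Lb X) (a : X → ℝ) (r : X → ℝ≥0) (x : ℕ × X → ℝ),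
      Bs Γ kk cl Dn π LI n (kk (n + 1)) ∅ T L a r x → Mk Γ cl n (kk (n + 1)) L r S →
      A.HR n T₀ run₀ P T L.run →
      (∀ y ∈ P, ∃ c ∈ L.op, Dnp Γ n L c ∧ ∃ q ∈ L.cmp Γ n c, Γ.D q y ≤ Γ.ρ n) →
      (∀ c ∈ L.op, c ∉ W' → Dnp Γ n L c) →
      (∀ B, Γ.bl n B = B → B ∉ L.bad n → 2 * p n * cnt Γ n W' B ≤ x (n, B)) →
      Wg (gS φ ψ S) (cl (kk (Γ.N + 1))) a r (vx Γ W e n x) := by
  have h := H.pr
  have hp0 : 0 ≤ 2 * p n := h.p0 n
  induction W' using Finset.induction_on with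
  | empty =>
    intro P T L a r x hB hMk hHR _ hdone _
    have hel : ∀ c ∈ L.op, ¬ L.elig Γ n (L.cmp Γ n c) := fun c hc =>
      dnp_not_elig (hdone c hc (Finset.notMem_empty c))
    exact trans2 H A S hn next T₀ run₀ hHS hFc P T L a r x hB hMk hHR hel
  | insert z W' hzW ih =>
    intro P T L a r x hB hMk hHR hP hdone hc
    have hfac := h.fac n L hB.li
    by_cases hz : z ∈ L.op ∧ L.elig Γ n (L.cmp Γ n z)
    · -- an attempt
      obtain ⟨hzo, hel⟩ := hz
      set Q := L.cmp Γ n z with hQ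
      set B := Γ.bl n z with hBdef
      have hn1 : 1 ≤ n := by
        by_contra hc
        have h0 : n = 0 := by omega
        rw [hfac.pen h0] at hzo
        exact absurd hzo (Finset.notMem_empty z)
      have hnN : n < Γ.N := by
        by_contra hc
        rw [hMk.lst (not_lt.mp hc)] at hzo
        exact absurd hzo (Finset.notMem_empty z)
      have hzQ : z ∈ Q := self_comp hzo
      have hBB : Γ.bl n B = B := h.geo.idem n z
      have hBb : B ∉ L.bad n := by
        intro hb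
        have h1 : z ∈ Γ.enl n (L.bad n) 1 :=
          blk_sub_enl h.geo hb 1 (by rw [mem_blk])
        have h2 := hel.2 z hzQ z h1
        rw [h.geo.self] at h2
        exact absurd h2 (Nat.not_lt_zero _)
      obtain ⟨hrel1, hrel2, hrel3⟩ := hfac.rel z hzo hel
      have hQp : Q ⊆ L.pend := hel.1
      have hpx : 2 * p n ≤ x (n, B) := by
        have h1 := hc B hBB hBb
        rw [cnt_insert hzW, if_pos rfl] at h1
        have h2 := mul_nonneg hp0 (cnt_nonneg (Γ := Γ) n W' B)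
        linarith
      have hdisRQ : Disjoint (L.run ∩ Γ.nbh Q (Γ.ρ n)) Q := by
        rw [Finset.disjoint_left]
        intro y hy hyQ
        exact hB.disj h (Finset.mem_inter.mp hy).1 (hQp hyQ)
      -- the marked sites
      have hQS : ∀ y ∈ Q, y ∈ S := fun y hy => hMk.opn hnN y (comp_sub hy) y (by
        rw [h.geo.self]; exact Nat.zero_le _)
      have hRS : ∀ y ∈ L.run ∩ Γ.nbh Q (Γ.ρ n), y ∈ S := by
        intro y hy
        obtain ⟨q, hq, hD⟩ := (mem_nbh Γ Q (Γ.ρ n) y).mp (Finset.mem_inter.mp hy).2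
        exact hMk.opn hnN q (comp_sub hq) y hD
      -- the densities
      have hrs : ∀ y ∈ L.run, T.s y = cl (kk (n + 1)) := by
        intro y hy
        have := hB.fc.runs y hy
        rwa [if_neg (Finset.notMem_empty y)] at this
      have hclp : (0 : ℝ) < cl (kk (n + 1)) := by exact_mod_cast h.clpos _
      have hfp : (0 : ℝ) < cl (kk (Γ.N + 1)) := by exact_mod_cast h.clpos _
      have hdn := H.dens n hn1 hnN
      have hone : (1 : ℝ) ≤ 3 ^ d * Γ.J * (6 * Γ.L (n - 1) + 1) ^ d * (2 * Γ.ρ n + 1) ^ d := by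
        have h1 : 1 ≤ 3 ^ d * Γ.J * (6 * Γ.L (n - 1) + 1) ^ d * (2 * Γ.ρ n + 1) ^ d := by
          have hJ := h.scl.J1
          have h2 : 0 < Γ.J := by omega
          exact Nat.one_le_iff_ne_zero.mpr (by positivity)
        exact_mod_cast h1
      have hf1 : cl (kk (Γ.N + 1)) < cl (kk (n + 1)) := by
        have h1 : (cl (kk (Γ.N + 1)) : ℝ) < cl (kk (n + 1)) := by
          have h2 : 2 * (cl (kk (Γ.N + 1)) : ℝ) * 1 ≤ 2 * (cl (kk (Γ.N + 1)) : ℝ) *
              (3 ^ d * Γ.J * (6 * Γ.L (n - 1) + 1) ^ d * (2 * Γ.ρ n + 1) ^ d) := by gcongr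
          linarith
        exact_mod_cast h1
      have hRc : ((L.run ∩ Γ.nbh Q (Γ.ρ n)).card : ℝ) ≤
          3 ^ d * Γ.J * (6 * Γ.L (n - 1) + 1) ^ d * (2 * Γ.ρ n + 1) ^ d := by
        have h1 : (L.run ∩ Γ.nbh Q (Γ.ρ n)).card ≤
            3 ^ d * Γ.J * (6 * Γ.L (n - 1) + 1) ^ d * (2 * Γ.ρ n + 1) ^ d :=
          (Finset.card_le_card Finset.inter_subset_right).trans
            ((card_nbh h.geo Q (Γ.ρ n)).trans (Nat.mul_le_mul_right _ hrel2))
        exact_mod_cast h1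
      set cc := Real.sqrt ((cl (kk (n + 1)) : ℝ) /
        ((cl (kk (n + 1)) - cl (kk (Γ.N + 1)) : ℝ≥0) : ℝ)) with hcc
      have hcc1 : 1 ≤ cc := by
        rw [hcc, Real.one_le_sqrt]
        have h1 : (0 : ℝ) < ((cl (kk (n + 1)) - cl (kk (Γ.N + 1)) : ℝ≥0) : ℝ) := by
          exact_mod_cast tsub_pos_of_lt hf1
        rw [one_le_div h1]
        exact_mod_cast tsub_le_self
      have hcc2 : cc ^ (L.run ∩ Γ.nbh Q (Γ.ρ n)).card ≤ 2 := by
        refine fac_two _ _ _ (h.clpos _) hf1 (le_trans ?_ hdn)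
        exact mul_le_mul_of_nonneg_left hRc (by positivity)
      -- the value
      have hval := vw_step (J := Γ.J) (M := Γ.N + 2) (bb := bb Γ) (e₀ := e) (n := n) H.W0
        (tree_ch Γ) hB.x0 (n, B) hp0 hpx
      have hle := vw_upd_le (ch := Γ.ch) (J := Γ.J) (M := Γ.N + 2) (bb := bb Γ) (e₀ := e) (n := n)
        H.W0 hB.x0 (n, B) hp0 hpx (hB.x1 _)
      refine wg_mono (e := vw Γ.ch Γ.J (Γ.N + 2) W (bb Γ) e n
          (Function.update x (n, B) (x (n, B) - 2 * p n)) +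
          2 * p n * (vw Γ.ch Γ.J (Γ.N + 2) W (bb Γ) e n (Function.update x (n, B) 1) -
            vw Γ.ch Γ.J (Γ.N + 2) W (bb Γ) e n
              (Function.update x (n, B) (x (n, B) - 2 * p n)))) ?_ hval
      refine wg_att (H.fn.bm S) (L.run ∩ Γ.nbh Q (Γ.ρ n)) Q
        (fun v T' => (∀ x ∈ Q, T'.V x = v x ∧ T'.s x = 0) ∧
          ({x ∈ L.run | T'.s x = 0} : Finset X).card ≤ Kn n ∧
          A.HR n T₀ run₀ (P ∪ Γ.nbh Q (Γ.ρ n)) T' {x ∈ L.run | T'.s x ≠ 0})
        T a r (cl (kk (Γ.N + 1))) cc (p n) _ _ hcc1 hcc2 hdisRQ (H.p0 n) hle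
        (fun y hy => hB.tru y (hB.disj h (Finset.mem_inter.mp hy).1))
        (fun y hy => by
          rw [hrs y (Finset.mem_inter.mp hy).1]
          exact ⟨hf1, le_rfl⟩) ?_ ?_ ?_
      · intro v
        refine A.kil n T₀ run₀ P T L.run Q v hn hn1 hHS hFc hB.fc hHR ⟨z, hzQ⟩
          (fun y hy => ⟨fun hr => hB.disj h hr (hQp hy), hB.ppos y (hQp hy)⟩)
          (fun y hy w hw => ?_) hrel2 (fun y hy w hD => ?_) (fun y hy w hw => ?_)
        · have h1 := hrel1 y hy
          have h2 := hrel1 w hw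
          have h3 := h.geo.tri y z w
          rw [h.geo.comm y z] at h3
          omega
        · by_cases hwQ : w ∈ Q
          · exact Or.inl hwQ
          · right
            by_cases hwr : w ∈ L.run
            · exact Or.inl hwr
            · right
              refine hB.dead w hwr fun hwp => ?_
              exact absurd (hrel3 y hy w hwp hwQ) (not_lt.mpr hD)
        · obtain ⟨c, _, hdc, q, hq, hqD⟩ := hP w hw
          by_contra hcon
          have h1 : Γ.D y w ≤ 3 * Γ.ρ n := not_lt.mp hcon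
          have h2 := h.geo.tri q w y
          rw [h.geo.comm w y] at h2
          have h3 : Γ.D q y ≤ 10 * Γ.ρ n := by omega
          have h4 : L.cmp Γ n c = L.cmp Γ n z := comp_eq h.geo hq hy h3
          refine dnp_not_elig hdc ?_
          rw [h4]
          exact hel
      · -- success
        intro v T' a' r' hOk hmb hR1 hR2 hQ1 hoff
        obtain ⟨hOk1, hOk2, hOk3⟩ := hOk
        have hKdef : ∀ y, y ∈ ({x ∈ L.run | T'.s x = 0} : Finset X) ↔
            y ∈ L.run ∧ T'.s y = 0 := fun y => Finset.mem_filter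
        have hB' := hB.die (p := fun n => 2 * p n) h hBb hpx hzo hel
          (fun y hy => ⟨by rw [(hQ1 y hy).1, (hOk1 y hy).1], (hQ1 y hy).2, (hOk1 y hy).2⟩)
          hR1 hR2 hoff _ hKdef hOk2
        have hrun' : (L.die n ({x ∈ L.run | T'.s x = 0} : Finset X) Q).run =
            ({x ∈ L.run | T'.s x ≠ 0} : Finset X) := by
          ext y
          show y ∈ L.run \ _ ↔ _
          rw [Finset.mem_sdiff, hKdef, Finset.mem_filter]
          tauto
        have hMk' : Mk Γ cl n (kk (n + 1)) (L.die n ({x ∈ L.run | T'.s x = 0} : Finset X) Q)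
            r' S := by
          refine ⟨fun y hy => ?_, fun y h1 h2 => ?_, fun hn y hy w hw => hMk.opn hn y hy w hw,
            fun hn => hMk.lst hn⟩
          · rw [(hoff y (fun hq => hy (hQS y hq)) fun hR => hy (hRS y hR)).2.1]
            exact hMk.fresh y hy
          · have hpend : (L.die n ({x ∈ L.run | T'.s x = 0} : Finset X) Q).pend =
              L.pend \ Q := rfl
            rw [hrun', Finset.mem_filter, not_and, not_not] at h1
            rw [hpend, Finset.mem_sdiff, not_and, not_not] at h2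
            by_contra hyS
            have hyQ : y ∉ Q := fun hq => hyS (hQS y hq)
            have hyp : y ∉ L.pend := fun hp => hyQ (h2 hp)
            by_cases hyr : y ∈ L.run
            · have h3 := h1 hyr
              have hyR : y ∉ L.run ∩ Γ.nbh Q (Γ.ρ n) := fun hR => hyS (hRS y hR)
              rw [(hoff y hyQ hyR).2.2.2] at h3
              exact absurd h3 (hB.run_pos h y hyr).ne'
            · exact hyS (hMk.dead y hyr hyp)
        refine ih (P ∪ Γ.nbh Q (Γ.ρ n)) T' _ a' r' _ hB' hMk' (by rw [hrun']; exact hOk3) ?_ ?_ ?_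
        · intro y hy
          rw [Finset.mem_union, mem_nbh] at hy
          rcases hy with hy | ⟨q, hq, hD⟩
          · obtain ⟨c, hc1, hc2, hc3⟩ := hP y hy
            exact ⟨c, hc1, dnp_die hc2, hc3⟩
          · refine ⟨z, hzo, Or.inl ⟨z, hzQ, fun h1 => ?_, fun h1 => ?_⟩, q, hq, ?_⟩
            · exact hB.disj h (Finset.mem_sdiff.mp h1).1 (hQp hzQ)
            · exact (Finset.mem_sdiff.mp h1).2 hzQ
            · rw [h.geo.comm]; exact hD
        · intro c hc1 hc2
          by_cases hcz : c = z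
          · subst hcz
            exact Or.inl ⟨c, hzQ, fun h1 => hB.disj h (Finset.mem_sdiff.mp h1).1 (hQp hzQ),
              fun h1 => (Finset.mem_sdiff.mp h1).2 hzQ⟩
          · exact dnp_die (hdone c hc1 fun h1 => by
              rcases Finset.mem_insert.mp h1 with h1 | h1
              · exact hcz h1
              · exact hc2 h1)
        · intro C h1 h2
          have h3 := hc C h1 h2
          rw [cnt_insert hzW] at h3
          by_cases hCB : C = B
          · subst hCB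
            rw [Function.update_self]
            rw [if_pos rfl] at h3
            linarith
          · rw [Function.update_of_ne (by simpa using hCB)]
            rw [if_neg (Ne.symm hCB), add_zero] at h3
            exact h3
      · -- failure
        intro a' r' hoff
        have hRen : ∀ y, y ∈ L.run ∩ Γ.nbh Q (Γ.ρ n) → y ∈ Γ.enl n {B} 1 := by
          intro y hy
          obtain ⟨q, hq, hD⟩ := (mem_nbh Γ Q (Γ.ρ n) y).mp (Finset.mem_inter.mp hy).2
          rw [mem_enl]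
          refine ⟨z, Finset.mem_singleton_self _, ?_⟩
          have h1 := hrel1 q hq
          have h2 := h.geo.tri y q z
          rw [h.geo.comm q z] at h2
          omega
        have hB' := hB.rej h (P' := ∅) (a' := a') (r' := r') (h.kk_le n) hBB
          (Finset.Subset.refl _) (fun y _ _ hy => hy)
          (fun y hy hye => hoff y (fun hq => hy (hQp hq)) fun hR => hye (hRen y hR))
          (fun y hy hyr => hoff y (fun hq => hy (hQp hq))
            fun hR => hyr (Finset.mem_inter.mp hR).1)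
        have hbad : (L.add Γ n {B}).bad n = L.bad n ∪ {B} := by
          show Function.update L.bad n (L.bad n ∪ {B}) n = _
          rw [Function.update_self]
        have hMk' : Mk Γ cl n (kk (n + 1)) (L.add Γ n {B}) r' S := hMk.add {B} fun y hy => by
          rw [(hoff y (fun hq => hy (hQS y hq)) fun hR => hy (hRS y hR)).2]
          exact hMk.fresh y hy
        refine ih P T (L.add Γ n {B}) a' r' _ hB' hMk' ?_ ?_ ?_ ?_
        · exact A.rmon n T₀ run₀ P P T L.run _ (Finset.Subset.refl _) Finset.sdiff_subset hB.fc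
            hB'.fc hHR
        · intro y hy
          obtain ⟨c, hc1, hc2, hc3⟩ := hP y hy
          exact ⟨c, hc1, dnp_add hc2, hc3⟩
        · intro c hc1 hc2
          by_cases hcz : c = z
          · subst hcz
            right
            refine ⟨c, hzQ, c, ?_, ?_⟩
            · rw [hbad]
              refine blk_sub_enl h.geo (B := B)
                (Finset.mem_union_right _ (Finset.mem_singleton_self B)) 1 ?_
              rw [mem_blk]
            · rw [h.geo.self]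
              exact Nat.zero_le _
          · exact dnp_add (hdone c hc1 fun h1 => by
              rcases Finset.mem_insert.mp h1 with h1 | h1
              · exact hcz h1
              · exact hc2 h1)
        · intro C h1 h2
          rw [hbad, Finset.mem_union, Finset.mem_singleton, not_or] at h2
          rw [Function.update_of_ne (by simpa using h2.2)]
          refine le_trans (mul_le_mul_of_nonneg_left (cnt_le_insert hzW C) hp0) (hc C h1 h2.1)
    · -- nothing to do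
      refine ih P T L a r x hB hMk hHR hP (fun c hc1 hc2 => ?_) fun C h1 h2 => ?_
      · by_cases hcz : c = z
        · subst hcz
          exact not_elig_dnp hB.opr fun hel => hz ⟨hc1, hel⟩
        · exact hdone c hc1 fun h1 => by
            rcases Finset.mem_insert.mp h1 with h1 | h1
            · exact hcz h1
            · exact hc2 h1
      · exact le_trans (mul_le_mul_of_nonneg_left (cnt_le_insert hzW C) hp0) (hc C h1 h2)

/-- the release phase of the super-stage `n` -/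
theorem rel_step2 (H : Hp Γ d o th kk cl Kn Dn p π c W K e φ ψ LI)
    (A : Ana Γ d o ∅ th kk cl Kn Dn p) (S : Finset X) {n : ℕ} (hn : n ≤ Γ.N)
    (next : ∀ (S' : Finset X) (T : Cfg X) (L : Lb X) (a : X → ℝ) (r : X → ℝ≥0) (x : ℕ × X → ℝ),
      Bs Γ kk cl Dn π LI (n + 1) (kk (n + 1)) ∅ T L a r x → Mk Γ cl (n + 1) (kk (n + 1)) L r S' →
      A.HS (n + 1) (kk (n + 1)) T L.run →
      (∀ B, Γ.bl (n + 1) B = B → B ∉ L.bad (n + 1) →
        2 * p (n + 1) * ((kk (n + 2) : ℝ) - kk (n + 1) + (Γ.L (n + 1) : ℝ) ^ d) ≤ x (n + 1, B)) →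
      Wg (gS φ ψ S') (cl (kk (Γ.N + 1))) a r (vx Γ W e (n + 1) x))
    (T : Cfg X) (L : Lb X) (a : X → ℝ) (r : X → ℝ≥0) (x : ℕ × X → ℝ)
    (hB : Bs Γ kk cl Dn π LI n (kk (n + 1)) ∅ T L a r x) (hMk : Mk Γ cl n (kk (n + 1)) L r S)
    (hHS : A.HS n (kk (n + 1)) T L.run)
    (hc : ∀ B, Γ.bl n B = B → B ∉ L.bad n →
        2 * p n * ((kk (n + 1) : ℝ) - (kk (n + 1) : ℕ) + (Γ.L n : ℝ) ^ d) ≤ x (n, B)) :
    Wg (gS φ ψ S) (cl (kk (Γ.N + 1))) a r (vx Γ W e n x) := by
  have h := H.pr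
  refine rel_mid2 H A S hn next T L.run hHS hB.fc Finset.univ ∅ T L a r x hB hMk
    (A.rbeg n T L.run hn hB.fc hHS) (fun y hy => absurd hy (Finset.notMem_empty y))
    (fun c _ hc => absurd (Finset.mem_univ c) hc) fun B h1 h2 => ?_
  refine le_trans (mul_le_mul_of_nonneg_left ?_ (h.p0 n)) (hc B h1 h2)
  rw [sub_self, zero_add]
  unfold cnt
  have h3 := h.geo.bvol n B
  unfold Geo.blk at h3
  exact_mod_cast h3

end Pool.Agent.ANP.AC
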