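import Pool.Agent.Helper16_AC.Mark
import Pool.Agent.Helper16_ANP.PrtC

/-! One stage. -/

set_option autoImplicit false
set_option linter.unusedSectionVars false

open MeasureTheory ProbabilityTheory

open scoped ENNReal NNReal BigOperators

noncomputable section

namespace Pool.Agent.ANP.AC

open Pool.Agent.ANP Pool.Agent.ANP.H16

variable {X : Type} [Fintype X] [DecidableEq X]

/-- the hypotheses -/
structure Hp (Γ : Geo X) (d : ℕ) (o : X) (th : ℝ≥0) (kk : ℕ → ℕ) (cl : ℕ → ℝ≥0)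
    (Kn Dn : ℕ → ℕ) (p π c W : ℕ → ℝ) (K e : ℝ) (φ : (X → ℝ) → ℝ) (ψ : X → (X → ℝ) → ℝ)
    (LI : ℕ → Lb X → Prop) : Prop where
  pr : Pr Γ d o ∅ th kk cl Kn Dn (fun n => 2 * p n) π LI
  fn : Fn φ ψ K
  e0 : 0 ≤ e
  N1 : 1 ≤ Γ.N
  p0 : ∀ n, 0 ≤ p n
  W0 : ∀ n, 0 ≤ W n
  c0 : ∀ n, 0 ≤ c n
  dens : ∀ n, 1 ≤ n → n < Γ.N →
      2 * (cl (kk (Γ.N + 1)) : ℝ) *
        (3 ^ d * Γ.J * (6 * Γ.L (n - 1) + 1) ^ d * (2 * Γ.ρ n + 1) ^ d) ≤ cl (kk (n + 1))
  cost : ∀ n, 1 ≤ n → n < Γ.N → ∀ (x : X) (a : X → ℝ) (r : X → ℝ≥0),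
      th * cl (kk n) ≤ r x + cl (kk (Γ.N + 1)) → ∫ U, ψ x U ∂(gm a r) ≤ c n
  wgt : ∀ n, 1 ≤ n → n < Γ.N → ∀ B,
      ((Γ.nbh (Γ.enl (n - 1) {B} 2) (Γ.ρ n)).card : ℝ) * c n ≤ W (n - 1)
  w1 : 1 ≤ W (Γ.N - 1)
  w2 : 1 ≤ W Γ.N
  w3 : 1 ≤ W (Γ.N + 1)

/-- the marked sites -/
structure Mk (Γ : Geo X) (cl : ℕ → ℝ≥0) (n k : ℕ) (L : Lb X) (r : X → ℝ≥0) (S : Finset X) :
    Prop where
  fresh : ∀ y, y ∉ S → cl (k + 1) ≤ r y
  dead : ∀ y, y ∉ L.run → y ∉ L.pend → y ∈ S
  opn : n < Γ.N → ∀ y ∈ L.op, ∀ z, Γ.D z y ≤ Γ.ρ n → z ∈ S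
  lst : Γ.N ≤ n → L.op = ∅

/-- the blocks of level `j` -/
def bb (Γ : Geo X) (j : ℕ) : Finset X := {B | Γ.bl j B = B}

/-- the value in super-stage `n` -/
def vx (Γ : Geo X) (W : ℕ → ℝ) (e : ℝ) (n : ℕ) (x : ℕ × X → ℝ) : ℝ :=
  vw Γ.ch Γ.J (Γ.N + 2) W (bb Γ) e n x

variable {Γ : Geo X} {d : ℕ} {o : X} {th : ℝ≥0} {kk : ℕ → ℕ} {cl : ℕ → ℝ≥0}
  {Kn Dn : ℕ → ℕ} {p π c W : ℕ → ℝ} {K e : ℝ} {φ : (X → ℝ) → ℝ} {ψ : X → (X → ℝ) → ℝ}
  {LI : ℕ → Lb X → Prop}

/-- freezing does not change the marks -/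
theorem Mk.add {n k : ℕ} {L : Lb X} {r r' : X → ℝ≥0} {S : Finset X} (h : Mk Γ cl n k L r S)
    (𝓑 : Finset X) (hr : ∀ y, y ∉ S → cl (k + 1) ≤ r' y) : Mk Γ cl n k (L.add Γ n 𝓑) r' S := by
  refine ⟨hr, fun y h1 h2 => ?_, fun hn y hy z hz => h.opn hn y hy z hz, fun hn => h.lst hn⟩
  have hrun : (L.add Γ n 𝓑).run = L.run \ Γ.enl n 𝓑 1 := rfl
  have hpend : (L.add Γ n 𝓑).pend = L.pend ∪ (L.run ∩ Γ.enl n 𝓑 1) := rfl
  rw [hrun, Finset.mem_sdiff] at h1
  rw [hpend, Finset.mem_union, Finset.mem_inter] at h2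
  refine h.dead y ?_ ?_ <;> tauto

theorem Mk.next {n k : ℕ} {L : Lb X} {r : X → ℝ≥0} {S : Finset X} (h : Mk Γ cl n k L r S)
    (hcl : cl (k + 1 + 1) ≤ cl (k + 1)) : Mk Γ cl n (k + 1) L r S :=
  ⟨fun y hy => hcl.trans (h.fresh y hy), h.dead, h.opn, h.lst⟩

/-- during a stage -/
theorem stage_mid2 (H : Hp Γ d o th kk cl Kn Dn p π c W K e φ ψ LI)
    (A : Ana Γ d o ∅ th kk cl Kn Dn p) (S : Finset X)
    {n k : ℕ} (hn : n ≤ Γ.N) (hk1 : kk n ≤ k) (hk2 : k < kk (n + 1))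
    (next : ∀ (T : Cfg X) (L : Lb X) (a : X → ℝ) (r : X → ℝ≥0) (x : ℕ × X → ℝ),
      Bs Γ kk cl Dn π LI n (k + 1) ∅ T L a r x → Mk Γ cl n (k + 1) L r S →
      A.HS n (k + 1) T L.run →
      (∀ B, Γ.bl n B = B → B ∉ L.bad n →
        2 * p n * ((kk (n + 1) : ℝ) - (k + 1) + (Γ.L n : ℝ) ^ d) ≤ x (n, B)) →
      Wg (gS φ ψ S) (cl (kk (Γ.N + 1))) a r (vx Γ W e n x))
    (T₀ : Cfg X) (run₀ : Finset X) (hHS : A.HS n k T₀ run₀) (hFc : Fc Γ kk cl Dn n k ∅ T₀ run₀)
    (W' : Finset X) :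
    (∀ B ∈ W', Γ.bl n B = B) →
    ∀ (T : Cfg X) (L : Lb X) (a : X → ℝ) (r : X → ℝ≥0) (x : ℕ × X → ℝ),
      Bs Γ kk cl Dn π LI n k (Pw Γ n W') T L a r x → Mk Γ cl n k L r S →
      A.HM n k T₀ run₀ (Pw Γ n W') T L.run →
      (∀ B, Γ.bl n B = B → B ∉ L.bad n →
        2 * p n * ((kk (n + 1) : ℝ) - (k + 1) + (Γ.L n : ℝ) ^ d + if B ∈ W' then 1 else 0) ≤
          x (n, B)) →
      Wg (gS φ ψ S) (cl (kk (Γ.N + 1))) a r (vx Γ W e n x) := by
  have h := H.pr
  have hfk : cl (kk (Γ.N + 1)) ≤ cl (k + 1) := by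
    refine h.cl_anti ?_
    have h1 : kk (n + 1) ≤ kk (Γ.N + 1) :=
      monotone_nat_of_le_succ (fun n => h.kk_le n) (by omega)
    omega
  induction W' using Finset.induction_on with
  | empty =>
    intro _ T L a r x hB hMk hM hc
    rw [Pw_empty] at hB hM
    obtain ⟨m, hm⟩ := A.fin n k T₀ run₀ T L.run hn hk1 hk2 hHS hFc hB.fc hM
    refine next (T.rg m) L a r x (hB.stage m) (hMk.next (h.cl_succ_le _)) hm fun B h1 h2 => ?_
    have := hc B h1 h2
    rw [if_neg (Finset.notMem_empty B), add_zero] at this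
    exact this
  | insert B W' hBW ih =>
    intro hW T L a r x hB hMk hM hc
    have hBB : Γ.bl n B = B := hW B (Finset.mem_insert_self B W')
    have hW' : ∀ B ∈ W', Γ.bl n B = B := fun C hC => hW C (Finset.mem_insert_of_mem hC)
    have hPP := Pw_insert (Γ := Γ) (n := n) hBW
    have hdis := Pw_disj (Γ := Γ) (n := n) (W := W') (B := B)
    have hPsub : Pw Γ n (insert B W') ⊆ Pw Γ n W' := by rw [← hPP]; exact Finset.subset_union_left
    have hp0 : 0 ≤ 2 * p n := h.p0 n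
    by_cases hBb : B ∈ L.bad n
    · -- the block is bad: skip
      have hfz := (h.fac n L hB.li).frz
      have hd' : ∀ y ∈ L.run, y ∈ Pw Γ n W' → y ∈ Pw Γ n (insert B W') := by
        intro y hy hy2
        rw [← hPP, Finset.mem_union] at hy2
        rcases hy2 with h1 | h1
        · exact h1
        · exact absurd (blk_sub_enl h.geo hBb 1 h1) (Finset.disjoint_left.mp hfz hy)
      have hB' := hB.skip h hk1 hPsub hd'
      refine ih hW' T L a r x hB' hMk ?_ fun C h1 h2 => ?_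
      · exact A.mmon n k T₀ run₀ _ _ T L.run L.run hPsub (Finset.Subset.refl _) hB.fc hB'.fc hM
      · refine le_trans (mul_le_mul_of_nonneg_left ?_ hp0) (hc C h1 h2)
        by_cases hC : C ∈ W'
        · rw [if_pos hC, if_pos (Finset.mem_insert_of_mem hC)]
        · rw [if_neg hC]
          split_ifs <;> linarith
    · -- a trial
      set U := L.run ∩ Γ.blk n B with hU
      have hkk : (k : ℝ) + 1 ≤ kk (n + 1) := by exact_mod_cast hk2
      have hL0 : (0 : ℝ) ≤ (Γ.L n : ℝ) ^ d := by positivity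
      have hpx : 2 * p n ≤ x (n, B) := by
        have h1 := hc B hBB hBb
        rw [if_pos (Finset.mem_insert_self B W')] at h1
        refine le_trans ?_ h1
        have h2 := mul_le_mul_of_nonneg_left
          (by linarith : (1 : ℝ) ≤ (kk (n + 1) : ℝ) - (k + 1) + (Γ.L n : ℝ) ^ d + 1) hp0
        linarith
      -- the sites of `U` have the clock `cl k`
      have hUs : ∀ y ∈ U, T.s y = cl k ∧ r y = cl k := by
        intro y hy
        have hyr : y ∈ L.run := (Finset.mem_inter.mp hy).1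
        have hyP : y ∉ Pw Γ n (insert B W') := fun hP =>
          Finset.disjoint_left.mp hdis hP (Finset.mem_inter.mp hy).2
        have h1 := hB.fc.runs y hyr
        rw [if_neg hyP] at h1
        exact ⟨h1, by rw [(hB.tru y (hB.disj h hyr)).2, h1]⟩
      have hτ : ∀ y, T.hv th U y ≤ r y - cl (kk (Γ.N + 1)) := by
        intro y
        unfold Cfg.hv
        split_ifs with hy
        · rw [(hUs y hy).1, (hUs y hy).2]
          refine le_tsub_of_add_le_left ?_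
          have h1 : th * cl k + (1 - th) * cl k = cl k := by
            rw [← add_mul, add_tsub_cancel_of_le h.th1.le, one_mul]
          calc cl (kk (Γ.N + 1)) + (1 - th) * cl k ≤ cl (k + 1) + (1 - th) * cl k := by gcongr
            _ = th * cl k + (1 - th) * cl k := by rw [h.cls]
            _ = cl k := h1
        · exact zero_le
      -- the fresh sites stay fresh
      have hfr : ∀ y, y ∉ S → cl (k + 1) ≤ r y - T.hv th U y := by
        intro y hy
        by_cases hyU : y ∈ U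
        · unfold Cfg.hv
          rw [if_pos hyU, (hUs y hyU).1, (hUs y hyU).2, h.cls]
          refine le_of_eq (tsub_eq_of_eq_add ?_).symm
          rw [← add_mul, add_tsub_cancel_of_le h.th1.le, one_mul]
        · unfold Cfg.hv
          rw [if_neg hyU, tsub_zero]
          exact hMk.fresh y hy
      have hle2 : ENNReal.ofReal (p n) ≤ ENNReal.ofReal (2 * p n) :=
        ENNReal.ofReal_le_ofReal (by linarith [H.p0 n])
      unfold vx
      refine wg_trial H.W0 (tree_ch Γ) hB.x0 (n, B) hp0 hpx (hB.x1 _) _ a r (T.hv th U) hτ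
        (H.fn.bm S)
        {ζ | ¬ A.HM n k T₀ run₀ (Pw Γ n (insert B W') ∪ Γ.blk n B) (T.hf th U ζ) L.run} ?_ ?_ ?_
      · exact (A.flo n k T₀ run₀ _ T L.run B hn hk1 hk2 hBB hdis hHS hFc hB.fc hM).trans hle2
      · intro ζ hζ hR
        rw [Set.mem_setOf_eq, not_not, hPP] at hR
        have hB' := hB.upd h hBb hdis hpx ζ hζ
        rw [hPP] at hB'
        refine ih hW' (T.hf th U ζ) L _ _ _ hB' ⟨hfr, hMk.dead, hMk.opn, hMk.lst⟩ hR
          fun C h1 h2 => ?_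
        have h3 := hc C h1 h2
        by_cases hCB : C = B
        · subst hCB
          rw [Function.update_self, if_neg hBW]
          rw [if_pos (Finset.mem_insert_self C W')] at h3
          linarith
        · rw [Function.update_of_ne (by simpa using hCB)]
          refine le_trans (mul_le_mul_of_nonneg_left ?_ hp0) h3
          by_cases hC : C ∈ W'
          · rw [if_pos hC, if_pos (Finset.mem_insert_of_mem hC)]
          · rw [if_neg hC]
            split_ifs <;> linarith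
      · intro ζ hζ
        have hζ' : ∀ y, y ∉ U → ζ y = 0 ∧ T.hv th U y = 0 := fun y hy => by
          have e : T.hv th U y = 0 := by unfold Cfg.hv; rw [if_neg hy]
          exact ⟨hζ y e, e⟩
        have hsb : Γ.blk n B ⊆ Γ.enl n {B} 1 := blk_sub_enl h.geo (Finset.mem_singleton_self B) 1
        have hB' := hB.rej h (a' := fun y => a y + ζ y) (r' := fun y => r y - T.hv th U y) hk1 hBB
          hPsub (fun y _ hy hy2 => by
            rw [← hPP, Finset.mem_union] at hy2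
            rcases hy2 with h1 | h1
            · exact h1
            · exact absurd (hsb h1) hy)
          (fun y _ hy => by
            obtain ⟨e1, e2⟩ := hζ' y fun hU' => hy (hsb (Finset.mem_inter.mp hU').2)
            rw [e1, e2, add_zero, tsub_zero]
            exact ⟨rfl, rfl⟩)
          (fun y _ hy => by
            obtain ⟨e1, e2⟩ := hζ' y fun hU' => hy (Finset.mem_inter.mp hU').1
            rw [e1, e2, add_zero, tsub_zero]
            exact ⟨rfl, rfl⟩)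
        refine ih hW' T (L.add Γ n {B}) _ _ _ hB' (hMk.add {B} hfr) ?_ fun C h1 h2 => ?_
        · exact A.mmon n k T₀ run₀ _ _ T L.run _ hPsub Finset.sdiff_subset hB.fc hB'.fc hM
        · have hbad : (L.add Γ n {B}).bad n = L.bad n ∪ {B} := by
            show Function.update L.bad n (L.bad n ∪ {B}) n = _
            rw [Function.update_self]
          rw [hbad, Finset.mem_union, Finset.mem_singleton, not_or] at h2
          rw [Function.update_of_ne (by simpa using h2.2)]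
          refine le_trans (mul_le_mul_of_nonneg_left ?_ hp0) (hc C h1 h2.1)
          by_cases hC : C ∈ W'
          · rw [if_pos hC, if_pos (Finset.mem_insert_of_mem hC)]
          · rw [if_neg hC]
            split_ifs <;> linarith

/-- one stage -/
theorem stage_step2 (H : Hp Γ d o th kk cl Kn Dn p π c W K e φ ψ LI)
    (A : Ana Γ d o ∅ th kk cl Kn Dn p) (S : Finset X)
    {n k : ℕ} (hn : n ≤ Γ.N) (hk1 : kk n ≤ k) (hk2 : k < kk (n + 1))
    (next : ∀ (T : Cfg X) (L : Lb X) (a : X → ℝ) (r : X → ℝ≥0) (x : ℕ × X → ℝ),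
      Bs Γ kk cl Dn π LI n (k + 1) ∅ T L a r x → Mk Γ cl n (k + 1) L r S →
      A.HS n (k + 1) T L.run →
      (∀ B, Γ.bl n B = B → B ∉ L.bad n →
        2 * p n * ((kk (n + 1) : ℝ) - (k + 1) + (Γ.L n : ℝ) ^ d) ≤ x (n, B)) →
      Wg (gS φ ψ S) (cl (kk (Γ.N + 1))) a r (vx Γ W e n x))
    (T : Cfg X) (L : Lb X) (a : X → ℝ) (r : X → ℝ≥0) (x : ℕ × X → ℝ)
    (hB : Bs Γ kk cl Dn π LI n k ∅ T L a r x) (hMk : Mk Γ cl n k L r S)
    (hHS : A.HS n k T L.run)
    (hc : ∀ B, Γ.bl n B = B → B ∉ L.bad n →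
        2 * p n * ((kk (n + 1) : ℝ) - k + (Γ.L n : ℝ) ^ d) ≤ x (n, B)) :
    Wg (gS φ ψ S) (cl (kk (Γ.N + 1))) a r (vx Γ W e n x) := by
  have h := H.pr
  have hP : Pw Γ n (Finset.univ.filter fun B => Γ.bl n B = B) = ∅ := by
    ext y
    simp [mem_Pw, h.geo.idem]
  refine stage_mid2 H A S hn hk1 hk2 next T L.run hHS hB.fc
    (Finset.univ.filter fun B => Γ.bl n B = B) (fun B hB => by simpa using hB) T L a r x
    (by rw [hP]; exact hB) hMk ?_ fun B h1 h2 => ?_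
  · rw [hP]
    exact A.beg n k T L.run hn hk1 hk2 hB.fc hHS
  · refine le_trans (le_of_eq ?_) (hc B h1 h2)
    rw [if_pos (by simpa using h1)]
    ring

end Pool.Agent.ANP.AC
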