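import Pool.Agent.Helper16_AC.Att
import Pool.Agent.Helper16_ANP.PrtA

/-! The weighted potential function. -/

set_option autoImplicit false

open MeasureTheory ProbabilityTheory

open scoped ENNReal NNReal BigOperators

noncomputable section

namespace Pool.Agent.ANP.AC

open Pool.Agent.ANP Pool.Agent.ANP.H16

section val

variable {Y : Type} [DecidableEq Y]

/-- the weighted potential function of the levels `n ≤ j < M` -/
def wph (ch : ℕ → Y → Finset Y) (J M : ℕ) (W : ℕ → ℝ) (bb : ℕ → Finset Y) (n : ℕ)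
    (x : ℕ × Y → ℝ) : ℝ :=
  ∑ j ∈ Finset.Ico n M, W j * ∑ B ∈ bb j, H72.QQ ch J x j B

variable {ch : ℕ → Y → Finset Y} {J M : ℕ} {W : ℕ → ℝ} {bb : ℕ → Finset Y} {n : ℕ}

theorem wph_nonneg (hW : ∀ j, 0 ≤ W j) {x : ℕ × Y → ℝ} (h0 : ∀ c, 0 ≤ x c) :
    0 ≤ wph ch J M W bb n x :=
  Finset.sum_nonneg fun j _ => mul_nonneg (hW j)
    (Finset.sum_nonneg fun B _ => H72.qq_nonneg h0 j B)

theorem wph_mono (hW : ∀ j, 0 ≤ W j) {x y : ℕ × Y → ℝ} (h0 : ∀ c, 0 ≤ x c)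
    (h : ∀ c, x c ≤ y c) : wph ch J M W bb n x ≤ wph ch J M W bb n y :=
  Finset.sum_le_sum fun j _ => mul_le_mul_of_nonneg_left
    (Finset.sum_le_sum fun B _ => H72.qq_mono h0 h j B) (hW j)

theorem wph_affine (hW : ∀ j, 0 ≤ W j) (hT : H72.Tree ch) {x : ℕ × Y → ℝ} (h0 : ∀ c, 0 ≤ x c)
    (c : ℕ × Y) : ∃ A D : ℝ, 0 ≤ A ∧ 0 ≤ D ∧
      ∀ t : ℝ, wph ch J M W bb n (Function.update x c t) = A + D * t := by
  obtain ⟨m, C⟩ := c
  choose A D hA hD hf _ _ _ using H72.qq_affine (J := J) hT h0 m C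
  refine ⟨∑ j ∈ Finset.Ico n M, W j * ∑ B ∈ bb j, A j B,
    ∑ j ∈ Finset.Ico n M, W j * ∑ B ∈ bb j, D j B,
    Finset.sum_nonneg fun j _ => mul_nonneg (hW j) (Finset.sum_nonneg fun B _ => hA j B),
    Finset.sum_nonneg fun j _ => mul_nonneg (hW j) (Finset.sum_nonneg fun B _ => hD j B), ?_⟩
  intro t
  unfold wph
  rw [Finset.sum_mul, ← Finset.sum_add_distrib]
  refine Finset.sum_congr rfl fun j _ => ?_
  simp only [hf, Finset.sum_add_distrib]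
  rw [← Finset.sum_mul]
  ring

/-- one trial of the block `c`, which fails with probability at most `p ≤ x c` -/
theorem wph_step (hW : ∀ j, 0 ≤ W j) (hT : H72.Tree ch) {x : ℕ × Y → ℝ} (h0 : ∀ c, 0 ≤ x c)
    (c : ℕ × Y) {p : ℝ} (hp : 0 ≤ p) (hpx : p ≤ x c) :
    (1 - p) * wph ch J M W bb n (Function.update x c (x c - p)) +
      p * wph ch J M W bb n (Function.update x c 1) ≤ wph ch J M W bb n x := by
  obtain ⟨A, D, hA, hD, h⟩ := wph_affine (J := J) (M := M) (bb := bb) (n := n) hW hT h0 c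
  have h1 := h (x c)
  rw [Function.update_eq_self] at h1
  rw [h, h, h1]
  have h2 : 0 ≤ D * (p * (x c - p)) := mul_nonneg hD (mul_nonneg hp (by linarith))
  nlinarith

theorem wph_one (hW : ∀ j, 0 ≤ W j) {x : ℕ × Y → ℝ} (h0 : ∀ c, 0 ≤ x c) {j : ℕ} (hn : n ≤ j)
    (hM : j < M) (h1 : 1 ≤ W j) {B : Y} (hB : B ∈ bb j) (h : 1 ≤ H72.QQ ch J x j B) :
    1 ≤ wph ch J M W bb n x := by
  have h2 : H72.QQ ch J x j B ≤ ∑ B ∈ bb j, H72.QQ ch J x j B :=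
    Finset.single_le_sum (f := fun B => H72.QQ ch J x j B)
      (fun B _ => H72.qq_nonneg h0 j B) hB
  have h3 : W j * ∑ B ∈ bb j, H72.QQ ch J x j B ≤ wph ch J M W bb n x :=
    Finset.single_le_sum (f := fun j => W j * ∑ B ∈ bb j, H72.QQ ch J x j B)
      (fun j _ => mul_nonneg (hW j) (Finset.sum_nonneg fun B _ => H72.qq_nonneg h0 j B))
      (Finset.mem_Ico.2 ⟨hn, hM⟩)
  have h4 : 1 * 1 ≤ W j * ∑ B ∈ bb j, H72.QQ ch J x j B :=
    mul_le_mul h1 (h.trans h2) zero_le_one (hW j)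
  linarith

theorem wph_succ (hn : n < M) (x : ℕ × Y → ℝ) : wph ch J M W bb n x =
    W n * ∑ B ∈ bb n, H72.QQ ch J x n B + wph ch J M W bb (n + 1) x := by
  unfold wph
  rw [Finset.sum_eq_sum_Ico_succ_bot hn]

theorem wph_succ_le (hW : ∀ j, 0 ≤ W j) {x : ℕ × Y → ℝ} (h0 : ∀ c, 0 ≤ x c) :
    wph ch J M W bb (n + 1) x ≤ wph ch J M W bb n x := by
  refine Finset.sum_le_sum_of_subset_of_nonneg ?_ fun j _ _ => mul_nonneg (hW j)
    (Finset.sum_nonneg fun B _ => H72.qq_nonneg h0 j B)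
  intro j hj
  rw [Finset.mem_Ico] at hj ⊢
  omega

/-- the value -/
def vw (ch : ℕ → Y → Finset Y) (J M : ℕ) (W : ℕ → ℝ) (bb : ℕ → Finset Y) (e₀ : ℝ) (n : ℕ)
    (x : ℕ × Y → ℝ) : ℝ := e₀ + wph ch J M W bb n x

variable {e₀ : ℝ}

theorem vw_mono (hW : ∀ j, 0 ≤ W j) {x y : ℕ × Y → ℝ} (h0 : ∀ c, 0 ≤ x c)
    (h : ∀ c, x c ≤ y c) : vw ch J M W bb e₀ n x ≤ vw ch J M W bb e₀ n y :=
  add_le_add le_rfl (wph_mono hW h0 h)

theorem vw_step (hW : ∀ j, 0 ≤ W j) (hT : H72.Tree ch) {x : ℕ × Y → ℝ} (h0 : ∀ c, 0 ≤ x c)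
    (c : ℕ × Y) {p : ℝ} (hp : 0 ≤ p) (hpx : p ≤ x c) :
    vw ch J M W bb e₀ n (Function.update x c (x c - p)) +
      p * (vw ch J M W bb e₀ n (Function.update x c 1) -
        vw ch J M W bb e₀ n (Function.update x c (x c - p))) ≤ vw ch J M W bb e₀ n x := by
  have h := wph_step (J := J) (M := M) (bb := bb) (n := n) hW hT h0 c hp hpx
  unfold vw
  linarith

theorem vw_upd_le (hW : ∀ j, 0 ≤ W j) {x : ℕ × Y → ℝ} (h0 : ∀ c, 0 ≤ x c) (c : ℕ × Y) {p : ℝ}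
    (hp : 0 ≤ p) (hpx : p ≤ x c) (hx1 : x c ≤ 1) :
    vw ch J M W bb e₀ n (Function.update x c (x c - p)) ≤
      vw ch J M W bb e₀ n (Function.update x c 1) :=
  vw_mono hW (upd_nonneg h0 c (sub_nonneg.mpr hpx)) (upd_le c (by linarith))

end val

variable {X : Type} [Fintype X] {Y : Type} [DecidableEq Y]
variable {ch : ℕ → Y → Finset Y} {J M : ℕ} {W : ℕ → ℝ} {bb : ℕ → Finset Y} {n : ℕ} {e₀ : ℝ}

/-- TRIAL: one noise, the set `R` of rejected noises has outer measure at most `p` -/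
theorem wf_trial (hW : ∀ j, 0 ≤ W j) (hT : H72.Tree ch) {x : ℕ × Y → ℝ} (h0 : ∀ c, 0 ≤ x c)
    (c : ℕ × Y) {p : ℝ} (hp : 0 ≤ p) (hpx : p ≤ x c) (hx1 : x c ≤ 1)
    (a : X → ℝ) (r τ : X → ℝ≥0) (hτ : ∀ x, τ x ≤ r x) {g : (X → ℝ) → ℝ} (hg : Bm g)
    (R : Set (X → ℝ)) (hR : gm (fun _ => 0) τ R ≤ ENNReal.ofReal p)
    (h₁ : ∀ ζ : X → ℝ, (∀ x, τ x = 0 → ζ x = 0) → ζ ∉ R →
      Wf g (fun x => a x + ζ x) (fun x => r x - τ x)
        (vw ch J M W bb e₀ n (Function.update x c (x c - p))))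
    (h₂ : ∀ ζ : X → ℝ, (∀ x, τ x = 0 → ζ x = 0) →
      Wf g (fun x => a x + ζ x) (fun x => r x - τ x)
        (vw ch J M W bb e₀ n (Function.update x c 1))) :
    Wf g a r (vw ch J M W bb e₀ n x) :=
  wf_mono (wf_step hg a r τ hτ R p _ _ (vw_upd_le hW h0 c hp hpx hx1) hp hR h₁ h₂)
    (vw_step hW hT h0 c hp hpx)

end Pool.Agent.ANP.AC
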