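import Pool.Agent.Helper16_ANP.Win

/-! `Win` for a bounded function: `∫ g d gm a r ≤ e`. -/

set_option autoImplicit false

open MeasureTheory ProbabilityTheory

open scoped ENNReal NNReal BigOperators

noncomputable section

namespace Pool.Agent.ANP.AC

open Pool.Agent.ANP Pool.Agent.ANP.H16

variable {X : Type} [Fintype X]

/-- the mean of `g` is at most `e` -/
def Wf (g : (X → ℝ) → ℝ) (a : X → ℝ) (r : X → ℝ≥0) (e : ℝ) : Prop := ∫ U, g U ∂(gm a r) ≤ e

/-- bounded and measurable -/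
structure Bm (g : (X → ℝ) → ℝ) : Prop where
  meas : Measurable g
  bd : ∃ K : ℝ, 0 ≤ K ∧ ∀ U, |g U| ≤ K

theorem Bm.int {g : (X → ℝ) → ℝ} (h : Bm g) (μ : Measure (X → ℝ)) [IsFiniteMeasure μ] :
    Integrable g μ := by
  obtain ⟨K, _, hK⟩ := h.bd
  refine Integrable.of_bound h.meas.aestronglyMeasurable K ?_
  filter_upwards with ζ
  rw [Real.norm_eq_abs]
  exact hK ζ

theorem gm_integral_shift {g : (X → ℝ) → ℝ} (hg : Bm g) (a ζ : X → ℝ) (q : X → ℝ≥0) :
    ∫ y, g y ∂(gm (fun x => a x + ζ x) q) = ∫ y, g (ζ + y) ∂(gm a q) := by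
  rw [← gm_shift a ζ q, integral_map (by fun_prop) hg.meas.aestronglyMeasurable]

theorem gm_int_meas {g : (X → ℝ) → ℝ} (hg : Bm g) (a : X → ℝ) (q : X → ℝ≥0) :
    Measurable (fun ζ : X → ℝ => ∫ y, g y ∂(gm (fun x => a x + ζ x) q)) := by
  have h : (fun ζ : X → ℝ => ∫ y, g y ∂(gm (fun x => a x + ζ x) q)) =
      fun ζ => ∫ y, g (ζ + y) ∂(gm a q) := by
    funext ζ
    exact gm_integral_shift hg a ζ q
  rw [h]
  have h2 : StronglyMeasurable (Function.uncurry fun ζ y : X → ℝ => g (ζ + y)) := by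
    have h3 : Measurable (Function.uncurry fun ζ y : X → ℝ => g (ζ + y)) :=
      hg.meas.comp (by fun_prop)
    exact h3.stronglyMeasurable
  exact h2.integral_prod_right.measurable

theorem gm_int_bd {g : (X → ℝ) → ℝ} {K : ℝ} (hK : ∀ U, |g U| ≤ K) (a : X → ℝ)
    (q : X → ℝ≥0) : |∫ y, g y ∂(gm a q)| ≤ K := by
  rw [← Real.norm_eq_abs]
  refine (norm_integral_le_of_norm_le_const (C := K) ?_).trans ?_
  · filter_upwards with ζ
    rw [Real.norm_eq_abs]
    exact hK ζ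
  · simp

/-- the step identity -/
theorem gm_step_int {g : (X → ℝ) → ℝ} (hg : Bm g) (a : X → ℝ) (p q : X → ℝ≥0) :
    ∫ y, g y ∂(gm a (fun x => p x + q x)) =
      ∫ ζ, (∫ y, g y ∂(gm (fun x => a x + ζ x) q)) ∂(gm (fun _ => 0) p) := by
  have h := gm_conv (fun _ : X => (0 : ℝ)) a p q
  have h1 : (fun x => (0 : ℝ) + a x) = a := by funext x; simp
  rw [h1] at h
  rw [← h]
  unfold Measure.conv
  rw [integral_map (by fun_prop) hg.meas.aestronglyMeasurable, integral_prod]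
  · refine integral_congr_ae ?_
    filter_upwards with ζ
    exact (gm_integral_shift hg a ζ q).symm
  · obtain ⟨K, _, hK⟩ := hg.bd
    refine Integrable.of_bound ?_ K ?_
    · exact (hg.meas.comp (by fun_prop)).aestronglyMeasurable
    · filter_upwards with ζ
      rw [Real.norm_eq_abs]
      exact hK _

theorem gm_step_int' {g : (X → ℝ) → ℝ} (hg : Bm g) (a : X → ℝ) (r τ : X → ℝ≥0)
    (hτ : ∀ x, τ x ≤ r x) :
    ∫ y, g y ∂(gm a r) =
      ∫ ζ, (∫ y, g y ∂(gm (fun x => a x + ζ x) (fun x => r x - τ x))) ∂(gm (fun _ => 0) τ) := by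
  have h := gm_step_int hg a τ (fun x => r x - τ x)
  have h1 : (fun x => τ x + (r x - τ x)) = r := by
    funext x; exact add_tsub_cancel_of_le (hτ x)
  rw [h1] at h
  exact h

theorem gm_int_int {g : (X → ℝ) → ℝ} (hg : Bm g) (a : X → ℝ) (q τ : X → ℝ≥0) :
    Integrable (fun ζ : X → ℝ => ∫ y, g y ∂(gm (fun x => a x + ζ x) q))
      (gm (fun _ => 0) τ) := by
  obtain ⟨K, _, hK⟩ := hg.bd
  refine Integrable.of_bound (gm_int_meas hg a q).aestronglyMeasurable K ?_
  filter_upwards with ζ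
  rw [Real.norm_eq_abs]
  exact gm_int_bd hK _ _

theorem wf_mono {g : (X → ℝ) → ℝ} {a : X → ℝ} {r : X → ℝ≥0} {e e' : ℝ} (h : Wf g a r e)
    (he : e ≤ e') : Wf g a r e' := le_trans h he

/-- `Wf` under one noise, with an exceptional set of small outer measure -/
theorem wf_step {g : (X → ℝ) → ℝ} (hg : Bm g) (a : X → ℝ) (r τ : X → ℝ≥0)
    (hτ : ∀ x, τ x ≤ r x) (R : Set (X → ℝ)) (p e₁ e₂ : ℝ) (he : e₁ ≤ e₂) (hp : 0 ≤ p)
    (hR : gm (fun _ => 0) τ R ≤ ENNReal.ofReal p)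
    (h₁ : ∀ ζ : X → ℝ, (∀ x, τ x = 0 → ζ x = 0) → ζ ∉ R →
      Wf g (fun x => a x + ζ x) (fun x => r x - τ x) e₁)
    (h₂ : ∀ ζ : X → ℝ, (∀ x, τ x = 0 → ζ x = 0) →
      Wf g (fun x => a x + ζ x) (fun x => r x - τ x) e₂) :
    Wf g a r (e₁ + p * (e₂ - e₁)) := by
  unfold Wf
  rw [gm_step_int' hg a r τ hτ]
  set μ := gm (fun _ : X => (0 : ℝ)) τ with hμ
  set e : (X → ℝ) → ℝ := fun ζ => ∫ y, g y ∂(gm (fun x => a x + ζ x) (fun x => r x - τ x))
    with hedef
  have hem : Measurable e := gm_int_meas hg a _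
  set B : Set (X → ℝ) := {ζ | e₁ < e ζ} with hB
  have hBm : MeasurableSet B := measurableSet_lt measurable_const hem
  have h0 := gm_ae_zero τ
  rw [← hμ] at h0
  have hBR : μ B ≤ μ R := by
    refine measure_mono_ae ?_
    filter_upwards [h0] with ζ hζ hζB
    by_contra hc
    exact absurd (h₁ ζ hζ hc) (not_le.mpr hζB)
  have hBp : μ.real B ≤ p := by
    unfold Measure.real
    exact ENNReal.toReal_le_of_le_ofReal hp (hBR.trans hR)
  have hle : e ≤ᵐ[μ] fun ζ => e₁ + B.indicator (fun _ => e₂ - e₁) ζ := by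
    filter_upwards [h0] with ζ hζ
    by_cases hb : ζ ∈ B
    · rw [Set.indicator_of_mem hb]
      have := h₂ ζ hζ
      unfold Wf at this
      simp only [hedef]
      linarith
    · rw [Set.indicator_of_notMem hb, add_zero]
      exact not_lt.mp hb
  have hint : Integrable (fun ζ => B.indicator (fun _ => e₂ - e₁) ζ) μ :=
    (integrable_const (e₂ - e₁)).indicator hBm
  calc ∫ ζ, e ζ ∂μ ≤ ∫ ζ, (e₁ + B.indicator (fun _ => e₂ - e₁) ζ) ∂μ :=
        integral_mono_ae (gm_int_int hg a _ τ) ((integrable_const e₁).add hint) hle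
    _ = e₁ + μ.real B * (e₂ - e₁) := by
        rw [integral_add (integrable_const e₁) hint, integral_const, integral_indicator_const _ hBm]
        simp
    _ ≤ e₁ + p * (e₂ - e₁) := by
        have := mul_le_mul_of_nonneg_right hBp (sub_nonneg.mpr he)
        linarith

/-- noise which is seen, never a test -/
theorem wf_noise {g : (X → ℝ) → ℝ} (hg : Bm g) (a : X → ℝ) (r τ : X → ℝ≥0)
    (hτ : ∀ x, τ x ≤ r x) (e : ℝ)
    (h : ∀ ζ : X → ℝ, (∀ x, τ x = 0 → ζ x = 0) →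
      Wf g (fun x => a x + ζ x) (fun x => r x - τ x) e) :
    Wf g a r e := by
  have h1 := wf_step hg a r τ hτ ∅ 0 e e le_rfl le_rfl (by simp) (fun ζ hζ _ => h ζ hζ)
    (fun ζ hζ => h ζ hζ)
  simpa using h1

end Pool.Agent.ANP.AC
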